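import Pool.Agent.LibLO19.Main
import Pool.Agent.LibRD13.FinD

/-!
MP_699cde_nt in arithmetic progressions, part 7: final form.
-/

set_option autoImplicit false
set_option linter.unusedSectionVars false

namespace LO19

open Finset Filter Topology RD

/-- change of threshold: from a bound depending on `n` to one depending on `x` -/
theorem card_split_ap (x b Q : ℕ) (hx : 1 ≤ x) (T : ℕ → ℝ) (t : ℝ)
    (hT : ∀ n : ℕ, Real.sqrt x < n → n ≤ x → t ≤ T n) :
    (#{n ∈ Icc 1 x | T n < N5dc7309f.f (b + Q * n)} : ℝ) ≤ Real.exp (Real.log x / 2) +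
      (#{n ∈ Icc 1 x | t < N5dc7309f.f (b + Q * n)} : ℝ) := by
  have h1 : {n ∈ Icc 1 x | T n < N5dc7309f.f (b + Q * n)} ⊆
      Icc 1 ⌊Real.sqrt x⌋₊ ∪ {n ∈ Icc 1 x | t < N5dc7309f.f (b + Q * n)} := by
    intro n hn
    rw [mem_filter, mem_Icc] at hn
    rw [mem_union, mem_filter, mem_Icc, mem_Icc]
    by_cases h : n ≤ ⌊Real.sqrt x⌋₊
    · exact Or.inl ⟨hn.1.1, h⟩
    · refine Or.inr ⟨hn.1, ?_⟩
      have h2 := hT n (Nat.lt_of_floor_lt (by omega)) hn.1.2
      linarith [hn.2]
  have hx0 : (0 : ℝ) < x := by exact_mod_cast hx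
  have h2 := (card_le_card h1).trans (card_union_le _ _)
  have h3 : (#{n ∈ Icc 1 x | T n < N5dc7309f.f (b + Q * n)} : ℝ) ≤
      (#(Icc 1 ⌊Real.sqrt x⌋₊) : ℝ) + (#{n ∈ Icc 1 x | t < N5dc7309f.f (b + Q * n)} : ℝ) := by
    exact_mod_cast h2
  refine h3.trans (add_le_add ?_ le_rfl)
  rw [Nat.card_Icc, Nat.add_sub_cancel]
  refine (Nat.floor_le (Real.sqrt_nonneg _)).trans (le_of_eq ?_)
  rw [Real.sqrt_eq_rpow, Real.rpow_def_of_pos hx0]
  congr 1; ring

/-- **the theorem in arithmetic progressions**: at most `N ^ (1 - c ε / log (8 / ε))` terms `n = b + Q m`,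
`1 ≤ m ≤ N`, of a progression have
`f n > C (log log log n + ε log log n + log (log (b + Q N) / log N))` -/
theorem unified_ap : ∃ C c : ℝ, 0 < C ∧ 0 < c ∧ ∀ᶠ x : ℕ in atTop, ∀ b Q : ℕ, 0 < Q → ∀ ε : ℝ,
    1 / Real.log (Real.log x) ≤ ε → ε ≤ 1 →
    (#((Icc 1 x).filter fun n : ℕ => C * (Real.log (Real.log (Real.log ((b + Q * n : ℕ) : ℝ))) +
        ε * Real.log (Real.log ((b + Q * n : ℕ) : ℝ)) +
        Real.log (Real.log ((b + Q * x : ℕ) : ℝ) / Real.log x)) < N5dc7309f.f (b + Q * n)) : ℝ)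
      ≤ (x : ℝ) ^ (1 - c * ε / Real.log (8 / ε)) := by
  obtain ⟨C, c, hC, hc, h⟩ := main_ap
  set c' : ℝ := min (1 / 4) (c / 2) with hc'
  have hc0 : 0 < c' := lt_min (by norm_num) (by positivity)
  have hc1 : c' ≤ 1 / 4 := min_le_left _ _
  have hc2 : c' ≤ c / 2 := min_le_right _ _
  refine ⟨2 * C, c', by positivity, hc0, ?_⟩
  have hlog : Tendsto (fun x : ℕ => Real.log x) atTop atTop :=
    Real.tendsto_log_atTop.comp tendsto_natCast_atTop_atTop
  have hloglog : Tendsto (fun x : ℕ => Real.log (Real.log x)) atTop atTop :=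
    Real.tendsto_log_atTop.comp hlog
  have hE : ∀ᶠ y : ℝ in atTop, 8 / c' * y ^ 2 ≤ Real.exp y := by
    have h1 : Tendsto (fun y : ℝ => Real.exp y / y ^ 2) atTop atTop :=
      Real.tendsto_exp_div_pow_atTop 2
    filter_upwards [h1.eventually (eventually_ge_atTop (8 / c')),
      eventually_gt_atTop (0 : ℝ)] with y hy hy2
    rwa [le_div_iff₀ (by positivity)] at hy
  filter_upwards [h, hloglog.eventually hE, hloglog.eventually (eventually_ge_atTop (100 : ℝ)),
    hlog.eventually (eventually_ge_atTop (100 : ℝ)), eventually_ge_atTop 1] with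
    x hx hEx hx2 hx3 hx5
  intro b Q hQ0 ε hε1 hε2
  have hx0 : (0 : ℝ) < x := by exact_mod_cast hx5
  set L : ℝ := Real.log x with hL
  set LL : ℝ := Real.log L with hLL
  set M : ℝ := Real.log LL with hM
  have hLL0 : 0 < LL := by linarith
  have hL0 : 0 < L := by linarith
  have hLe : L = Real.exp LL := by rw [hLL, Real.exp_log hL0]
  have hε : 0 < ε := lt_of_lt_of_le (by positivity) hε1
  have hεLL : 1 ≤ ε * LL := by
    rw [div_le_iff₀ hLL0] at hε1
    linarith
  set ρ : ℝ := Real.log (Real.log ((b + Q * x : ℕ) : ℝ) / L) with hρ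
  have hρ0 : 0 ≤ ρ := by
    apply Real.log_nonneg
    rw [le_div_iff₀ hL0, one_mul]
    apply Real.log_le_log hx0
    have h1 : x ≤ b + Q * x := by
      have : x ≤ Q * x := Nat.le_mul_of_pos_left _ hQ0
      omega
    exact_mod_cast h1
  have hcount := hx b Q hQ0 (ε * LL) hεLL (by nlinarith)
  have hr1 : ε * LL / LL = ε := by field_simp
  have hr2 : 8 * LL / (ε * LL) = 8 / ε := by field_simp
  rw [hr1, hr2] at hcount
  have h8 : (8 : ℝ) ≤ 8 / ε := by
    rw [le_div_iff₀ hε]; linarith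
  set κ : ℝ := Real.log (8 / ε) with hκ
  have hκ1 : 1 ≤ κ := by
    rw [hκ, Real.le_log_iff_exp_le (by positivity)]
    have := Real.exp_one_lt_d9
    linarith
  have hκ8 : κ ≤ 8 / ε := by
    have := Real.log_le_sub_one_of_pos (by positivity : 0 < 8 / ε)
    linarith
  have hsplit := card_split_ap x b Q hx5 (fun n => 2 * C *
      (Real.log (Real.log (Real.log ((b + Q * n : ℕ) : ℝ))) +
      ε * Real.log (Real.log ((b + Q * n : ℕ) : ℝ)) + ρ)) (C * (M + ε * LL + ρ)) (by
      intro m hm1 hm2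
      set n : ℕ := b + Q * m with hn
      have hn1 : Real.sqrt x < n := by
        refine lt_of_lt_of_le hm1 ?_
        have h1 : m ≤ n := by
          have : m ≤ Q * m := Nat.le_mul_of_pos_left _ hQ0
          omega
        exact_mod_cast h1
      have h1 := loglog_ge hx3 hn1
      rw [← hL, ← hLL] at h1
      have h2 : Real.sqrt LL ≤ Real.log (Real.log n) := by
        refine le_trans ?_ h1
        rw [Real.sqrt_le_left (by linarith)]
        nlinarith
      have h3 : Real.log (Real.sqrt LL) ≤ Real.log (Real.log (Real.log n)) :=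
        Real.log_le_log (Real.sqrt_pos.2 hLL0) h2
      rw [Real.log_sqrt hLL0.le, ← hM] at h3
      have h4 : ε * (LL / 2) ≤ ε * Real.log (Real.log n) :=
        mul_le_mul_of_nonneg_left (by linarith) hε.le
      show C * (M + ε * LL + ρ) ≤ 2 * C * (Real.log (Real.log (Real.log n)) +
        ε * Real.log (Real.log n) + ρ)
      have h5 : M + ε * LL + ρ ≤ 2 * (Real.log (Real.log (Real.log n)) +
        ε * Real.log (Real.log n) + ρ) := by linarith
      calc C * (M + ε * LL + ρ) ≤ C * (2 * (Real.log (Real.log (Real.log n)) +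
            ε * Real.log (Real.log n) + ρ)) := mul_le_mul_of_nonneg_left h5 hC.le
        _ = 2 * C * (Real.log (Real.log (Real.log n)) + ε * Real.log (Real.log n) + ρ) := by ring)
  have hLs : 8 / c' * LL ^ 2 ≤ L := by rw [hLe]; exact hEx
  have hw1 : 1 ≤ c' * ε / κ * L := by
    rw [div_mul_eq_mul_div, le_div_iff₀ (by linarith)]
    have h3 : 1 ≤ (ε * LL) ^ 2 := one_le_pow₀ hεLL
    have h4 : 8 * LL ^ 2 ≤ c' * L := by
      have h5 : c' * (8 / c' * LL ^ 2) = 8 * LL ^ 2 := by field_simp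
      rw [← h5]
      exact mul_le_mul_of_nonneg_left hLs hc0.le
    have h6 : 8 / ε ≤ ε * (8 * LL ^ 2) := by
      rw [div_le_iff₀ hε]
      nlinarith
    calc 1 * κ ≤ ε * (8 * LL ^ 2) := by linarith
      _ ≤ ε * (c' * L) := mul_le_mul_of_nonneg_left h4 hε.le
      _ = c' * ε * L := by ring
  have hw2 : c' * ε / κ * L ≤ L / 4 := by
    rw [div_mul_eq_mul_div, div_le_iff₀ (by linarith)]
    have h1 : c' * ε ≤ 1 / 4 := by nlinarith
    have h2 : c' * ε * L ≤ 1 / 4 * L := mul_le_mul_of_nonneg_right h1 hL0.le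
    nlinarith
  have hfin := sqrt_add (Real.exp_log hx0).symm hx3 hw1 hw2
  have hexp : x * Real.exp (-(c * L * ε / κ)) ≤ x * Real.exp (-(2 * (c' * ε / κ * L))) := by
    apply mul_le_mul_of_nonneg_left _ hx0.le
    apply Real.exp_le_exp.2
    have h1 : 2 * (c' * ε / κ * L) = 2 * c' * (ε * L / κ) := by ring
    have h2 : c * L * ε / κ = c * (ε * L / κ) := by ring
    rw [h1, h2]
    have h3 : 0 ≤ ε * L / κ := by positivity
    nlinarith
  rw [rpow_form hx0]
  linarith

end LO19
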