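import Pool.Agent.LibLO19.Scale

/-!
MP_699cde_nt in arithmetic progressions, part 6: all scales.
-/

set_option autoImplicit false
set_option linter.unusedSectionVars false

namespace LO19

open Finset Filter Topology RD

/-- the main count -/
theorem main_ap : ∃ C c : ℝ, 0 < C ∧ 0 < c ∧ ∀ᶠ x : ℕ in atTop, ∀ b Q : ℕ, 0 < Q →
    ∀ K : ℝ, 1 ≤ K → K ≤ Real.log (Real.log x) →
    (#{n ∈ Icc 1 x | C * (Real.log (Real.log (Real.log x)) + K +
        Real.log (Real.log ((b + Q * x : ℕ) : ℝ) / Real.log x)) < N5dc7309f.f (b + Q * n)} : ℝ)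
      ≤ x * Real.exp (-(c * Real.log x * (K / Real.log (Real.log x)) /
          Real.log (8 * Real.log (Real.log x) / K))) := by
  obtain ⟨C1, hC1, hS⟩ := scale_ap
  obtain ⟨CB, hCB, hBT⟩ := NB_BT
  have hlogC : 0 ≤ Real.log (2 * C1) := Real.log_nonneg (by linarith)
  refine ⟨6 * CB + CB * Real.log (2 * C1) + 9600, 1 / (32 * C1), by positivity, by positivity, ?_⟩
  have hlog : Tendsto (fun x : ℕ => Real.log x) atTop atTop :=
    Real.tendsto_log_atTop.comp tendsto_natCast_atTop_atTop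
  have hloglog : Tendsto (fun x : ℕ => Real.log (Real.log x)) atTop atTop :=
    Real.tendsto_log_atTop.comp hlog
  have hlll : Tendsto (fun x : ℕ => Real.log (Real.log (Real.log x))) atTop atTop :=
    Real.tendsto_log_atTop.comp hloglog
  -- `9 (e ^ y + 1) ≤ exp (e ^ y / (256 C1 y ^ 2))`
  have hE : ∀ᶠ y : ℝ in atTop,
      9 * (Real.exp y + 1) ≤ Real.exp (Real.exp y / (256 * C1 * y ^ 2)) := by
    have h1 : Tendsto (fun y : ℝ => Real.exp y / y ^ 3) atTop atTop :=
      Real.tendsto_exp_div_pow_atTop 3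
    filter_upwards [h1.eventually (eventually_ge_atTop (512 * C1)),
      eventually_ge_atTop (4 : ℝ)] with y hy hy2
    have hy0 : 0 < y := by linarith
    have h2 : 2 * y ≤ Real.exp y / (256 * C1 * y ^ 2) := by
      rw [le_div_iff₀ (by positivity)] at hy ⊢
      nlinarith
    refine le_trans ?_ (Real.exp_le_exp.2 h2)
    have h3 : Real.exp (2 * y) = Real.exp y * Real.exp y := by
      rw [← Real.exp_add]; congr 1; ring
    rw [h3]
    have h4 : 18 ≤ Real.exp y := by
      have h5 : Real.exp 4 ≤ Real.exp y := Real.exp_le_exp.2 hy2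
      have h6 : (2.7 : ℝ) ^ 4 ≤ Real.exp 4 := by
        have h7 : Real.exp 4 = Real.exp 1 ^ 4 := by
          rw [← Real.exp_nat_mul]; norm_num
        rw [h7]
        have := Real.exp_one_gt_d9
        gcongr
        linarith
      have h8 : (18 : ℝ) ≤ 2.7 ^ 4 := by norm_num
      linarith
    nlinarith
  filter_upwards [hS, hloglog.eventually hE, hloglog.eventually (eventually_ge_atTop (100 : ℝ)),
    hlog.eventually (eventually_ge_atTop (100 : ℝ)), hlll.eventually (eventually_ge_atTop (1 : ℝ)),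
    eventually_ge_atTop 1] with x hSx hEx hx2 hx3 hx5 hx4
  intro b Q hQ0 K hK1 hK2
  set L : ℝ := Real.log x with hL
  set LL : ℝ := Real.log L with hLL
  have hLL0 : 0 < LL := by linarith
  have hL0 : 0 < L := by linarith
  have hx0 : (0 : ℝ) < x := by exact_mod_cast hx4
  have hxe : (x : ℝ) = Real.exp L := by rw [hL, Real.exp_log hx0]
  have hLe : L = Real.exp LL := by rw [hLL, Real.exp_log hL0]
  set δ : ℝ := K / LL with hδd
  have hK0 : 0 < K := by linarith
  have hδ : 0 < δ := by positivity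
  have hδ1 : 1 / LL ≤ δ := by
    rw [hδd]; gcongr
  have hδ2 : δ ≤ 1 := by
    rw [hδd, div_le_one hLL0]; exact hK2
  have h8K : 8 * LL / K = 8 / δ := by
    rw [hδd]; field_simp
  rw [h8K]
  set κ : ℝ := Real.log (8 / δ) with hκ
  have h8 : (8 : ℝ) ≤ 8 / δ := by
    rw [le_div_iff₀ hδ]; linarith
  have hκ2 : 2 ≤ κ := by
    rw [hκ, Real.le_log_iff_exp_le (by positivity)]
    have h1 : Real.exp 2 ≤ 8 := by
      have := Real.exp_one_lt_d9
      have h2 : Real.exp 2 = Real.exp 1 ^ 2 := by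
        rw [← Real.exp_nat_mul]; norm_num
      rw [h2]
      have h3 : (0 : ℝ) < Real.exp 1 := Real.exp_pos 1
      nlinarith
    linarith
  have hκ0 : 0 < κ := by linarith
  have hδinv : 1 / δ ≤ LL := by
    rw [div_le_iff₀ hδ]
    rw [div_le_iff₀ hLL0] at hδ1
    linarith
  have hκ8 : κ ≤ 8 / δ := by
    have := Real.log_le_sub_one_of_pos (by positivity : 0 < 8 / δ)
    linarith
  have hκLL : κ ≤ LL := by
    have h1 : 8 / δ ≤ 8 * LL := by
      have : 8 / δ = 8 * (1 / δ) := by ring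
      rw [this]; linarith
    have h2 : κ ≤ Real.log (8 * LL) := Real.log_le_log (by positivity) h1
    have h3 : Real.log (8 * LL) ≤ LL := by
      rw [Real.log_le_iff_le_exp (by positivity)]
      have h4 := Real.quadratic_le_exp_of_nonneg hLL0.le
      nlinarith
    linarith
  -- the largest term
  set X : ℕ := b + Q * x with hX
  have hxX : x ≤ X := by
    have : x ≤ Q * x := Nat.le_mul_of_pos_left _ hQ0
    omega
  set LX : ℝ := Real.log ((X : ℕ) : ℝ) with hLX
  have hLLX : L ≤ LX := Real.log_le_log hx0 (by exact_mod_cast hxX)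
  have hLX0 : 0 < LX := by linarith
  have hq1 : 1 ≤ LX / L := by
    rw [le_div_iff₀ hL0]; linarith
  set ρ : ℝ := Real.log (LX / L) with hρ
  have hρ0 : 0 ≤ ρ := Real.log_nonneg hq1
  have hlogLX : Real.log LX = LL + ρ := by
    rw [hρ, Real.log_div hLX0.ne' hL0.ne']
    ring
  have hNall : ∀ n ∈ Icc 1 x, ((Nat.log 2 (b + Q * n) + 1 : ℕ) : ℝ) ≤ 2 * LX := by
    intro n hn
    rw [mem_Icc] at hn
    have h0 : 0 < b + Q * n := by
      have : 0 < Q * n := Nat.mul_pos hQ0 (by omega)
      omega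
    have hn0 : (0 : ℝ) < ((b + Q * n : ℕ) : ℝ) := by exact_mod_cast h0
    have h1 : (2 : ℝ) ^ (Nat.log 2 (b + Q * n)) ≤ ((b + Q * n : ℕ) : ℝ) := by
      have := Nat.pow_log_le_self 2 (by omega : b + Q * n ≠ 0)
      exact_mod_cast this
    have h2 : (Nat.log 2 (b + Q * n) : ℝ) * Real.log 2 ≤ Real.log ((b + Q * n : ℕ) : ℝ) := by
      rw [← Real.log_pow]
      exact Real.log_le_log (by positivity) h1
    have h3 : Real.log ((b + Q * n : ℕ) : ℝ) ≤ LX := by
      apply Real.log_le_log hn0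
      have : b + Q * n ≤ X := by
        rw [hX]
        have := Nat.mul_le_mul_left Q hn.2
        omega
      exact_mod_cast this
    have h4 := log_two_bounds.1
    have h5 : (0 : ℝ) ≤ (Nat.log 2 (b + Q * n) : ℝ) := Nat.cast_nonneg _
    push_cast
    nlinarith
  have hlogNall : ∀ n ∈ Icc 1 x, Real.log ((Nat.log 2 (b + Q * n) + 1 : ℕ) : ℝ) ≤ 1 + LL + ρ := by
    intro n hn
    have h1 : Real.log ((Nat.log 2 (b + Q * n) + 1 : ℕ) : ℝ) ≤ Real.log (2 * LX) :=
      Real.log_le_log (by positivity) (hNall n hn)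
    rw [Real.log_mul (by norm_num) (by positivity), hlogLX] at h1
    have := log_two_bounds.2
    linarith
  have hBTall : ∀ (n i : ℕ), (NB (2 ^ i) (2 ^ i) n : ℝ) / 2 ^ i ≤ CB * (1 / (i + 1)) := by
    intro n i
    rw [div_le_iff₀ (by positivity)]
    calc (NB (2 ^ i) (2 ^ i) n : ℝ) ≤ CB * 2 ^ i / (i + 1) := hBT i n
      _ = CB * (1 / (i + 1)) * 2 ^ i := by ring
  -- the scales
  set i0 : ℕ := ⌈6 * LL⌉₊ with hi0
  set i1 : ℕ := ⌊L * δ / (C1 * κ)⌋₊ with hi1
  have hi0l : 6 * LL ≤ i0 := Nat.le_ceil _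
  have hi0u : (i0 : ℝ) ≤ 7 * LL := by
    have := (Nat.ceil_lt_add_one (by positivity : 0 ≤ 6 * LL)).le
    linarith
  have hi01 : 1 ≤ i0 := by
    have h1 : (1 : ℝ) ≤ i0 := by linarith
    exact_mod_cast h1
  have hdiv0 : 0 ≤ L * δ / (C1 * κ) := by positivity
  have hi1l : (i1 : ℝ) ≤ L * δ / (C1 * κ) := Nat.floor_le hdiv0
  have hi1u : L * δ / (C1 * κ) < i1 + 1 := Nat.lt_floor_add_one _
  -- large differences
  rcases lt_or_ge (2 * (4 : ℝ) ^ i0) (Real.log Q) with hbig | hQlog
  · have hemp : {n ∈ Icc 1 x | (6 * CB + CB * Real.log (2 * C1) + 9600) * (Real.log LL + K + ρ)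
        < N5dc7309f.f (b + Q * n)} = ∅ := by
      rw [filter_eq_empty_iff]
      intro n hn
      rw [not_lt]
      have h4 : Real.exp (8 * LL) ≤ (4 : ℝ) ^ i0 := by
        have h5 : (4 : ℝ) ^ i0 = Real.exp (Real.log 4 * i0) := by
          rw [← Real.rpow_natCast, Real.rpow_def_of_pos (by norm_num)]
        rw [h5]
        apply Real.exp_le_exp.2
        have h6 : Real.log 4 = 2 * Real.log 2 := by
          have : (4 : ℝ) = 2 ^ 2 := by norm_num
          rw [this, Real.log_pow]
          push_cast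
          ring
        have h7 := log_two_bounds.1
        rw [h6]
        nlinarith
      have hQR : (0 : ℝ) < Q := by exact_mod_cast hQ0
      have h5 : Real.log Q ≤ LX := by
        apply Real.log_le_log hQR
        have : Q ≤ X := by
          have : Q ≤ Q * x := Nat.le_mul_of_pos_right _ (by omega)
          omega
        exact_mod_cast this
      have h6 : 8 * LL ≤ Real.log LX := by
        rw [Real.le_log_iff_exp_le hLX0]
        have := Real.exp_pos (8 * LL)
        linarith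
      have h7 : 7 * LL ≤ ρ := by linarith
      have h8 := f_le (b + Q * n)
      have h9 : ∑ i ∈ range (Nat.log 2 (b + Q * n) + 1),
          (NB (2 ^ i) (2 ^ i) (b + Q * n) : ℝ) / 2 ^ i ≤ CB * (2 + LL + ρ) := by
        refine (sum_le_sum fun i _ => hBTall (b + Q * n) i).trans ?_
        rw [← mul_sum]
        apply mul_le_mul_of_nonneg_left _ hCB.le
        refine (harm0 _ (by omega)).trans ?_
        have := hlogNall n hn
        linarith
      have h10 : CB * (2 + LL + ρ) ≤ 6 * CB * (Real.log LL + K + ρ) := by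
        have h11 : 2 + LL + ρ ≤ 6 * (Real.log LL + K + ρ) := by linarith
        calc CB * (2 + LL + ρ) ≤ CB * (6 * (Real.log LL + K + ρ)) :=
              mul_le_mul_of_nonneg_left h11 hCB.le
          _ = 6 * CB * (Real.log LL + K + ρ) := by ring
      have h12 : 0 ≤ Real.log LL + K + ρ := by linarith
      have h13 : 0 ≤ CB * Real.log (2 * C1) := by positivity
      have h14 : 6 * CB * (Real.log LL + K + ρ) ≤
          (6 * CB + CB * Real.log (2 * C1) + 9600) * (Real.log LL + K + ρ) := by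
        apply mul_le_mul_of_nonneg_right _ h12
        linarith
      linarith
    rw [hemp, card_empty]
    push_cast
    positivity
  set S : ℕ → Finset ℕ := fun i => {n ∈ Ico (⌊Real.sqrt x⌋₊ + 1) (x + 1) |
        2400 * δ * 2 ^ i / i < (NB (2 ^ i) (2 ^ i) (b + Q * n) : ℝ)} with hSd
  have hSi : ∀ i ∈ Icc i0 i1, (#(S i) : ℝ) ≤
      3 * x * Real.exp (-(L * δ / (16 * C1 * κ))) + Real.exp (L / 8) := by
    intro i hi
    rw [mem_Icc] at hi
    have h1 : (i0 : ℝ) ≤ i := by exact_mod_cast hi.1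
    have h2 : (i : ℝ) ≤ i1 := by exact_mod_cast hi.2
    have hQi : Real.log Q ≤ 2 * 4 ^ i := by
      refine hQlog.trans ?_
      have h4 : (4 : ℝ) ^ i0 ≤ 4 ^ i := pow_le_pow_right₀ (by norm_num) hi.1
      linarith
    refine hSx b Q δ i hQ0 hQi hδ1 hδ2 (by linarith) ?_
    have h3 : (i : ℝ) ≤ L * δ / (C1 * κ) := by linarith
    rwa [le_div_iff₀ (by positivity)] at h3
  -- the inclusion
  have hsub : {n ∈ Icc 1 x | (6 * CB + CB * Real.log (2 * C1) + 9600) * (Real.log LL + K + ρ)
      < N5dc7309f.f (b + Q * n)} ⊆ Icc 1 ⌊Real.sqrt x⌋₊ ∪ (Icc i0 i1).biUnion S := by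
    intro n hn
    have hnI : n ∈ Icc 1 x := (mem_filter.1 hn).1
    rw [mem_filter, mem_Icc] at hn
    rw [mem_union]
    by_contra hcon
    rw [not_or] at hcon
    obtain ⟨hc1, hc2⟩ := hcon
    have hn1 : ⌊Real.sqrt x⌋₊ + 1 ≤ n := by
      by_contra h
      exact hc1 (mem_Icc.2 ⟨hn.1.1, by omega⟩)
    have hmid : ∀ i : ℕ, i0 ≤ i → i ≤ i1 →
        (NB (2 ^ i) (2 ^ i) (b + Q * n) : ℝ) / 2 ^ i ≤ 2400 * δ / i := by
      intro i h1 h2
      have h3 : n ∉ S i := fun h => hc2 (mem_biUnion.2 ⟨i, mem_Icc.2 ⟨h1, h2⟩, h⟩)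
      rw [hSd, mem_filter, not_and, not_lt] at h3
      have h4 := h3 (mem_Ico.2 ⟨hn1, by omega⟩)
      rw [div_le_iff₀ (by positivity)]
      calc (NB (2 ^ i) (2 ^ i) (b + Q * n) : ℝ) ≤ 2400 * δ * 2 ^ i / i := h4
        _ = 2400 * δ / i * 2 ^ i := by ring
    have hBTn : ∀ i : ℕ, (NB (2 ^ i) (2 ^ i) (b + Q * n) : ℝ) / 2 ^ i ≤ CB / (i + 1) := by
      intro i
      have := hBTall (b + Q * n) i
      rwa [mul_one_div] at this
    have hN2 := hNall n hnI
    have hY0 : 1 ≤ 2 * C1 * κ / δ := by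
      rw [le_div_iff₀ hδ]
      nlinarith
    have hY : 1 ≤ 2 * C1 * κ / δ * (LX / L) := by nlinarith
    have hp := pointwise CB δ (2 * C1 * κ / δ * (LX / L)) hCB hδ.le hY
      (fun i => (NB (2 ^ i) (2 ^ i) (b + Q * n) : ℝ) / 2 ^ i) (Nat.log 2 (b + Q * n) + 1) i0 i1
      hi01 (by omega)
      (by
        refine hN2.trans ?_
        have h1 : 2 * C1 * κ / δ * (LX / L) * (L * δ / (C1 * κ)) = 2 * LX := by
          field_simp
        rw [← h1]
        exact mul_le_mul_of_nonneg_left hi1u.le (by positivity)) hBTn hmid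
    have hf := f_le (b + Q * n)
    have hlogi0 : Real.log i0 ≤ 2 + Real.log LL := by
      have h1 : Real.log i0 ≤ Real.log (7 * LL) := by
        apply Real.log_le_log _ hi0u
        linarith
      rw [Real.log_mul (by norm_num) (by positivity)] at h1
      have h2 : Real.log 7 ≤ 2 := by
        rw [Real.log_le_iff_le_exp (by norm_num)]
        have h3 : Real.exp 2 = Real.exp 1 ^ 2 := by
          rw [← Real.exp_nat_mul]; norm_num
        rw [h3]
        have := Real.exp_one_gt_d9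
        nlinarith
      linarith
    have hlogN := hlogNall n hnI
    have hlogY : Real.log (2 * C1 * κ / δ * (LX / L)) ≤ Real.log (2 * C1) + 2 * Real.log LL + ρ := by
      have h1 : 2 * C1 * κ / δ * (LX / L) = (2 * C1) * κ * (1 / δ) * (LX / L) := by ring
      rw [h1, Real.log_mul (by positivity) (by positivity), Real.log_mul (by positivity)
        (by positivity), Real.log_mul (by positivity) (by positivity)]
      have h2 : Real.log κ ≤ Real.log LL := Real.log_le_log hκ0 hκLL
      have h3 : Real.log (1 / δ) ≤ Real.log LL := Real.log_le_log (by positivity) hδinv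
      linarith
    have hmidK : 4800 * δ * (1 + Real.log ((Nat.log 2 (b + Q * n) + 1 : ℕ) : ℝ)) ≤
        9600 * K + 4800 * ρ := by
      have h1 : 1 + Real.log ((Nat.log 2 (b + Q * n) + 1 : ℕ) : ℝ) ≤ 2 * LL + ρ := by linarith
      have h2 : δ * LL = K := by rw [hδd]; field_simp
      have h3 : δ * ρ ≤ ρ := by nlinarith
      calc 4800 * δ * (1 + Real.log ((Nat.log 2 (b + Q * n) + 1 : ℕ) : ℝ))
          ≤ 4800 * δ * (2 * LL + ρ) := by
            gcongr
        _ = 9600 * (δ * LL) + 4800 * (δ * ρ) := by ring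
        _ ≤ 9600 * K + 4800 * ρ := by rw [h2]; linarith
    have hlt := hn.2
    have hb1 : CB * (1 + Real.log i0) ≤ CB * (3 + Real.log LL) := by
      apply mul_le_mul_of_nonneg_left _ hCB.le
      linarith
    have hb2 : CB * Real.log (2 * C1 * κ / δ * (LX / L)) ≤
        CB * (Real.log (2 * C1) + 2 * Real.log LL + ρ) :=
      mul_le_mul_of_nonneg_left hlogY hCB.le
    have hb3 : CB * Real.log (2 * C1) * 1 ≤ CB * Real.log (2 * C1) * Real.log LL :=
      mul_le_mul_of_nonneg_left hx5 (by positivity)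
    have hb4 : 0 ≤ CB * Real.log (2 * C1) * K := by positivity
    have hb5 : 0 ≤ CB * K := by positivity
    have hb6 : 3 * CB * 1 ≤ 3 * CB * Real.log LL :=
      mul_le_mul_of_nonneg_left hx5 (by positivity)
    have hb7 : 0 ≤ Real.log LL := by linarith
    have hb8 : 0 ≤ CB * ρ := by positivity
    have hb9 : 0 ≤ CB * Real.log (2 * C1) * ρ := by positivity
    have hexpand : (6 * CB + CB * Real.log (2 * C1) + 9600) * (Real.log LL + K + ρ) =
        6 * (CB * Real.log LL) + CB * Real.log (2 * C1) * Real.log LL + 9600 * Real.log LL +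
        6 * (CB * K) + CB * Real.log (2 * C1) * K + 9600 * K +
        6 * (CB * ρ) + CB * Real.log (2 * C1) * ρ + 9600 * ρ := by ring
    have e1 : CB * (3 + Real.log LL) = 3 * CB + CB * Real.log LL := by ring
    have e2 : CB * (Real.log (2 * C1) + 2 * Real.log LL + ρ) =
        CB * Real.log (2 * C1) + 2 * (CB * Real.log LL) + CB * ρ := by ring
    rw [e1] at hb1
    rw [e2] at hb2
    have e3 : 3 * CB * Real.log LL = 3 * (CB * Real.log LL) := by ring
    rw [e3] at hb6
    have hfin : N5dc7309f.f (b + Q * n) ≤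
        (6 * CB + CB * Real.log (2 * C1) + 9600) * (Real.log LL + K + ρ) := by
      rw [hexpand]
      linarith
    exact absurd hlt (not_lt.2 hfin)
  -- the count
  have hcard : (#{n ∈ Icc 1 x | (6 * CB + CB * Real.log (2 * C1) + 9600) * (Real.log LL + K + ρ)
      < N5dc7309f.f (b + Q * n)} : ℝ) ≤ (#(Icc 1 ⌊Real.sqrt x⌋₊) : ℝ) + ∑ i ∈ Icc i0 i1, (#(S i) : ℝ) := by
    have h1 := (card_le_card hsub).trans (card_union_le _ _)
    have h2 : #((Icc i0 i1).biUnion S) ≤ ∑ i ∈ Icc i0 i1, #(S i) := card_biUnion_le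
    have h3 := h1.trans (Nat.add_le_add_left h2 _)
    exact_mod_cast h3
  refine hcard.trans ?_
  set w : ℝ := L * δ / (16 * C1 * κ) with hw
  have hsqrt : (#(Icc 1 ⌊Real.sqrt x⌋₊) : ℝ) ≤ Real.exp (L / 2) := by
    rw [Nat.card_Icc, Nat.add_sub_cancel]
    refine (Nat.floor_le (Real.sqrt_nonneg _)).trans (le_of_eq ?_)
    rw [hL, Real.sqrt_eq_rpow, Real.rpow_def_of_pos hx0]
    congr 1; ring
  have hw32 : w ≤ L / 32 := by
    rw [hw, div_le_div_iff₀ (by positivity) (by norm_num)]
    have h1 : (2 : ℝ) ≤ C1 * κ := by nlinarith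
    have h2 : L * δ ≤ L := by nlinarith
    nlinarith
  have hcardI : ((#(Icc i0 i1) : ℕ) : ℝ) ≤ L + 1 := by
    rw [Nat.card_Icc]
    have h1 : ((i1 + 1 - i0 : ℕ) : ℝ) ≤ i1 + 1 := by
      have : i1 + 1 - i0 ≤ i1 + 1 := Nat.sub_le _ _
      exact_mod_cast this
    have h2 : L * δ / (C1 * κ) ≤ L := by
      rw [div_le_iff₀ (by positivity)]
      have h3 : (1 : ℝ) ≤ C1 * κ := by nlinarith
      nlinarith
    linarith
  have hsum : ∑ i ∈ Icc i0 i1, (#(S i) : ℝ) ≤
      (L + 1) * (3 * x * Real.exp (-w) + Real.exp (L / 8)) := by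
    refine (sum_le_sum hSi).trans ?_
    rw [sum_const, nsmul_eq_mul]
    apply mul_le_mul_of_nonneg_right hcardI
    positivity
  have hw9 : 9 * (L + 1) ≤ Real.exp (w / 2) := by
    rw [← hLe] at hEx
    refine hEx.trans (Real.exp_le_exp.2 ?_)
    have h1 : w / 2 = L * δ / (32 * C1 * κ) := by
      rw [hw]; ring
    rw [h1, div_le_div_iff₀ (by positivity) (by positivity)]
    -- `L * (32 C1 κ) ≤ L δ (256 C1 LL ^ 2)`
    have h2 : κ ≤ δ * (8 * LL ^ 2) := by
      refine hκ8.trans ?_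
      rw [div_le_iff₀ hδ]
      have h3 : 1 ≤ δ * LL := by
        rw [div_le_iff₀ hLL0] at hδ1
        exact hδ1
      have h4 : 1 ≤ (δ * LL) ^ 2 := one_le_pow₀ h3
      nlinarith
    have h5 : 0 < L * C1 := by positivity
    calc L * (32 * C1 * κ) = (L * C1) * 32 * κ := by ring
      _ ≤ (L * C1) * 32 * (δ * (8 * LL ^ 2)) := by gcongr
      _ = L * δ * (256 * C1 * LL ^ 2) := by ring
  have hfin := count_num hxe hx3 hw32 hw9
  have hexp : 1 / (32 * C1) * L * δ / κ = w / 2 := by
    rw [hw]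
    field_simp
    ring
  rw [hexp]
  linarith

end LO19
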