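import Pool.Agent.LibLO19.Rap

/-!
MP_699cde_nt in arithmetic progressions, part 2: the mean value over a progression.
-/

set_option autoImplicit false
set_option linter.unusedSectionVars false

namespace LO19

open Finset RD

section col

variable {ι : Type} [Fintype ι] [DecidableEq ι]

theorem Phi_per_mul (R : ℕ) (hR : 1 ≤ R) (u l m t : ℕ) (V : ℝ) (T : Finset (Fin m)) (n : ℤ)
    (B : Fin m × Fin l → ι → Bool) (Q : ℕ) :
    MEAN_Phi R u l m t V T (n + (Q : ℤ) * (primorial R : ℕ)) B = MEAN_Phi R u l m t V T n B := by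
  induction Q with
  | zero => simp
  | succ q ih =>
    have h : n + ((q + 1 : ℕ) : ℤ) * (primorial R : ℕ) =
        (n + (q : ℤ) * (primorial R : ℕ)) + (primorial R : ℕ) := by
      push_cast
      ring
    rw [h, MEAN_Phi_per R hR, ih]

theorem mean_ap (R : ℕ) (hR : 1 ≤ R) (pr : ι → ℕ) (hp : ∀ i, (pr i).Prime)
    (hinj : Function.Injective pr) (hRp : ∀ i, R < pr i) (u l m t : ℕ)
    (hl : ∀ i, m * l < pr i) (T : Finset (Fin m)) (a : ℤ) (Q : ℕ) (hQ : ∀ i, ¬ pr i ∣ Q) :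
    ∑ n ∈ range (primorial R * ∏ i, pr i),
        ∏ q ∈ T, GB R pr t (EC (bet pr (m * l)) (WC t)) (u + q * l) l (a + Q * n) ^ 2
      ≤ ((primorial R * ∏ i, pr i : ℕ) : ℝ) * gam pr (m * l) *
        (l * ((R : ℝ) ^ 2) ^ 2 * EC (bet pr (m * l)) (fun c => WC t c ^ 2)) ^ #T := by
  obtain ⟨s, hs⟩ := inv_exists pr hp Q hQ
  have hcard : Fintype.card (Fin m × Fin l) = m * l := by
    rw [Fintype.card_prod, Fintype.card_fin, Fintype.card_fin]
  have hgam : 0 ≤ gam pr (m * l) := Finset.prod_nonneg fun i _ => (Real.exp_pos _).le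
  have h1 := crt (K := Fin m × Fin l) (primorial R) (primorial_pos R) pr
    (fun i => (hp i).pos)
    (fun i j hij => (Nat.coprime_primes (hp i) (hp j)).2 (fun h => hij (hinj h)))
    (fun i => MEAN_coprime R (pr i) (hp i) (hRp i))
    (fun k => s * (((u + (k.1 : ℕ) * l + (k.2 : ℕ) : ℕ) : ℤ) - a))
    (fun n B => MEAN_Phi R u l m t (EC (bet pr (m * l)) (WC t)) T (a + Q * n) B)
    (fun n B => MEAN_Phi_nonneg R u l m t _ T _ B)
    (fun n B => by
      have h := Phi_per_mul R hR u l m t (EC (bet pr (m * l)) (WC t)) T (a + Q * n) B Q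
      rw [← h]
      congr 1
      ring)
  have h0 : ∑ n ∈ range (primorial R * ∏ i, pr i),
        ∏ q ∈ T, GB R pr t (EC (bet pr (m * l)) (WC t)) (u + q * l) l (a + Q * n) ^ 2 =
      ∑ n ∈ range (primorial R * ∏ i, pr i),
        MEAN_Phi R u l m t (EC (bet pr (m * l)) (WC t)) T (a + Q * n)
        (fun k i => decide ((pr i : ℤ) ∣ (n : ℤ) -
          s * (((u + (k.1 : ℕ) * l + (k.2 : ℕ) : ℕ) : ℤ) - a))) := by
    refine Finset.sum_congr rfl fun n _ => ?_
    rw [MEAN_Phi_eq R pr u l m t _ T (a + Q * n)]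
    congr 1
    funext k i
    rw [decide_eq_decide]
    constructor
    · intro h4
      have h5 : (n : ℤ) - s * (((u + (k.1 : ℕ) * l + (k.2 : ℕ) : ℕ) : ℤ) - a) =
          s * (a + Q * n - ((u + (k.1 : ℕ) * l + (k.2 : ℕ) : ℕ) : ℤ)) - (Q * s - 1) * n := by ring
      rw [h5]
      exact dvd_sub (Dvd.dvd.mul_left h4 s) (Dvd.dvd.mul_right (hs i) _)
    · intro h4
      have h5 : a + (Q : ℤ) * n - ((u + (k.1 : ℕ) * l + (k.2 : ℕ) : ℕ) : ℤ) =
          Q * ((n : ℤ) - s * (((u + (k.1 : ℕ) * l + (k.2 : ℕ) : ℕ) : ℤ) - a)) +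
          (Q * s - 1) * (((u + (k.1 : ℕ) * l + (k.2 : ℕ) : ℕ) : ℤ) - a) := by ring
      rw [h5]
      exact dvd_add (Dvd.dvd.mul_left h4 _) (Dvd.dvd.mul_right (hs i) _)
  rw [h0]
  refine le_trans h1 ?_
  have h2 : ∀ n ∈ range (primorial R),
      ∑ b ∈ Fintype.piFinset (fun i => range (pr i)),
        MEAN_Phi R u l m t (EC (bet pr (m * l)) (WC t)) T (a + Q * (n : ℕ))
        (fun k i => decide ((pr i : ℤ) ∣ (b i : ℤ) -
          s * (((u + (k.1 : ℕ) * l + (k.2 : ℕ) : ℕ) : ℤ) - a))) ≤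
      (∏ i, (pr i : ℝ)) * gam pr (m * l) *
        (l * ((R : ℝ) ^ 2) ^ 2 * EC (bet pr (m * l)) (fun c => WC t c ^ 2)) ^ #T := by
    intro n _
    have h3 := dom (K := Fin m × Fin l) pr
      (fun k => s * (((u + (k.1 : ℕ) * l + (k.2 : ℕ) : ℕ) : ℤ) - a))
      (fun i => by rw [hcard]; exact hl i)
      (fun i k k' hk hd => by
        apply MEAN_pos u l m (pr i) (hl i) k k' hk
        have h5 : ((u + (k.1 : ℕ) * l + (k.2 : ℕ) : ℕ) : ℤ) -
            ((u + (k'.1 : ℕ) * l + (k'.2 : ℕ) : ℕ) : ℤ) =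
            Q * (s * (((u + (k.1 : ℕ) * l + (k.2 : ℕ) : ℕ) : ℤ) - a) -
              s * (((u + (k'.1 : ℕ) * l + (k'.2 : ℕ) : ℕ) : ℤ) - a)) -
            (Q * s - 1) * (((u + (k.1 : ℕ) * l + (k.2 : ℕ) : ℕ) : ℤ) -
            ((u + (k'.1 : ℕ) * l + (k'.2 : ℕ) : ℕ) : ℤ)) := by ring
        rw [h5]
        exact dvd_sub (Dvd.dvd.mul_left hd _) (Dvd.dvd.mul_right (hs i) _))
      (MEAN_Phi R u l m t (EC (bet pr (m * l)) (WC t)) T (a + Q * (n : ℕ)))
      (fun B => MEAN_Phi_nonneg R u l m t _ T _ B)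
    rw [hcard] at h3
    refine le_trans h3 ?_
    exact mul_le_mul_of_nonneg_left
      (MEAN_block R hR (bet pr (m * l)) (bet_mem pr (m * l) hl) u l m t T _)
      (mul_nonneg (Finset.prod_nonneg fun _ _ => Nat.cast_nonneg _) hgam)
  refine le_trans (Finset.sum_le_sum h2) (le_of_eq ?_)
  rw [Finset.sum_const, Finset.card_range, nsmul_eq_mul]
  push_cast
  ring

end col

end LO19
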