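import Pool.Agent.LibLO19.Mean

/-!
MP_699cde_nt in arithmetic progressions, part 3: one scale.
-/

set_option autoImplicit false
set_option linter.unusedSectionVars false

namespace LO19

open Finset RD

section col

variable {ι : Type} [Fintype ι] [DecidableEq ι]

/-- the bound for one set of `r` blocks -/
theorem set_ap (R : ℕ) (hR : 1 ≤ R) (pr : ι → ℕ) (hp : ∀ i, (pr i).Prime)
    (hinj : Function.Injective pr) (hRp : ∀ i, R < pr i) (u l m t r N : ℕ)
    (hl : ∀ i, m * l < pr i) (hV0 : 0 ≤ EC (bet pr (m * l)) (WC t))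
    (hV1 : EC (bet pr (m * l)) (WC t) ≤ 1) (a Q : ℕ) (hQ0 : 0 < Q) (hQ : ∀ i, ¬ pr i ∣ Q)
    (B : ℝ) (hB : 0 < B) (bad : ℕ → Finset (Fin m))
    (hbad : ∀ n ∈ range N, ∀ q ∈ bad n,
      B ≤ GB R pr t (EC (bet pr (m * l)) (WC t)) (u + q * l) l ((a : ℤ) + Q * n))
    (T : Finset (Fin m)) (hT : #T = r) :
    (#{n ∈ range N | T ⊆ bad n} : ℝ) ≤ (B ^ (2 * r))⁻¹ *
        (N * gam pr (m * l) *
            (l * ((R : ℝ) ^ 2) ^ 2 * EC (bet pr (m * l)) (fun c => WC t c ^ 2)) ^ r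
          + (l * ((R : ℝ) ^ 6 * (((Fintype.card ι : ℝ) + 1) ^ (2 * t) + 1))) ^ (2 * r)) := by
  set V := EC (bet pr (m * l)) (WC t) with hVdef
  set Λ : ℕ := primorial R * ∏ i, pr i with hΛdef
  set w : ℝ := l * ((R : ℝ) ^ 6 * (((Fintype.card ι : ℝ) + 1) ^ (2 * t) + 1)) with hw
  have hΛ : 0 < Λ := by
    refine Nat.mul_pos (primorial_pos R) ?_
    exact Finset.prod_pos fun i _ => (hp i).pos
  have hΛr : (0 : ℝ) < (Λ : ℝ) := by exact_mod_cast hΛ
  have hVa : |V| ≤ 1 := by rw [abs_of_nonneg hV0]; exact hV1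
  -- representation of the product
  have hrep0 : Rep Λ (∏ _q ∈ T, (w * w))
      (fun n => ∏ q ∈ T, (GB R pr t V (u + q * l) l n * GB R pr t V (u + q * l) l n)) :=
    rep_prod hΛ T (fun _ => w * w)
      (fun q n => GB R pr t V (u + q * l) l n * GB R pr t V (u + q * l) l n)
      (fun q _ => rep_mul (GB_rep R hR pr hp hinj t V hVa (u + q * l) l)
        (GB_rep R hR pr hp hinj t V hVa (u + q * l) l))
  have hrep := rep_ap hrep0 (a : ℤ) Q hQ0
  have htr := rep_transfer hΛ hrep 0 N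
  have hmean := mean_ap R hR pr hp hinj hRp u l m t hl T (a : ℤ) Q hQ
  rw [← hVdef, ← hΛdef, hT] at hmean
  have hprod : ∏ _q ∈ T, (w * w) = w ^ (2 * r) := by
    rw [Finset.prod_const, hT, ← pow_two, ← pow_mul]
  rw [hprod] at htr
  simp only [zero_add] at htr
  -- lower bound
  have hlow : (#{n ∈ range N | T ⊆ bad n} : ℝ) * B ^ (2 * r)
      ≤ ∑ y ∈ range N, ∏ q ∈ T, (GB R pr t V (u + q * l) l ((a : ℤ) + Q * y)
          * GB R pr t V (u + q * l) l ((a : ℤ) + Q * y)) := by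
    calc (#{n ∈ range N | T ⊆ bad n} : ℝ) * B ^ (2 * r)
        = ∑ _n ∈ (range N).filter (fun n => T ⊆ bad n), B ^ (2 * r) := by
          rw [Finset.sum_const, nsmul_eq_mul]
      _ ≤ ∑ n ∈ (range N).filter (fun n => T ⊆ bad n),
            ∏ q ∈ T, (GB R pr t V (u + q * l) l ((a : ℤ) + Q * n) *
              GB R pr t V (u + q * l) l ((a : ℤ) + Q * n)) := by
          refine Finset.sum_le_sum fun n hn => ?_
          rw [mem_filter] at hn
          have e2 : B ^ (2 * r) = ∏ _q ∈ T, (B * B) := by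
            rw [Finset.prod_const, hT, ← pow_two, ← pow_mul]
          rw [e2]
          refine Finset.prod_le_prod (fun q _ => by positivity) fun q hq => ?_
          have h3 := hbad n hn.1 q (hn.2 hq)
          exact mul_le_mul h3 h3 hB.le (hB.le.trans h3)
      _ ≤ ∑ n ∈ range N,
            ∏ q ∈ T, (GB R pr t V (u + q * l) l ((a : ℤ) + Q * n) *
              GB R pr t V (u + q * l) l ((a : ℤ) + Q * n)) := by
          refine Finset.sum_le_sum_of_subset_of_nonneg (filter_subset _ _) fun n _ _ => ?_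
          exact Finset.prod_nonneg fun q _ => mul_self_nonneg _
  -- upper bound
  have hup : ∑ y ∈ range N, ∏ q ∈ T, (GB R pr t V (u + q * l) l ((a : ℤ) + Q * y)
          * GB R pr t V (u + q * l) l ((a : ℤ) + Q * y))
      ≤ N * gam pr (m * l) *
            (l * ((R : ℝ) ^ 2) ^ 2 * EC (bet pr (m * l)) (fun c => WC t c ^ 2)) ^ r
          + w ^ (2 * r) := by
    have h5 := (abs_le.1 htr).2
    have h6 : ∑ y ∈ range Λ, ∏ q ∈ T, (GB R pr t V (u + q * l) l ((a : ℤ) + Q * y)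
          * GB R pr t V (u + q * l) l ((a : ℤ) + Q * y))
        ≤ (Λ : ℝ) * gam pr (m * l) *
          (l * ((R : ℝ) ^ 2) ^ 2 * EC (bet pr (m * l)) (fun c => WC t c ^ 2)) ^ r := by
      refine le_trans (le_of_eq ?_) hmean
      refine Finset.sum_congr rfl fun y _ => Finset.prod_congr rfl fun q _ => ?_
      rw [pow_two]
    have h7 : (N / Λ : ℝ) * ∑ y ∈ range Λ, ∏ q ∈ T, (GB R pr t V (u + q * l) l ((a : ℤ) + Q * y)
          * GB R pr t V (u + q * l) l ((a : ℤ) + Q * y))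
        ≤ (N / Λ : ℝ) * ((Λ : ℝ) * gam pr (m * l) *
          (l * ((R : ℝ) ^ 2) ^ 2 * EC (bet pr (m * l)) (fun c => WC t c ^ 2)) ^ r) :=
      mul_le_mul_of_nonneg_left h6 (by positivity)
    have h8 : (N / Λ : ℝ) * ((Λ : ℝ) * gam pr (m * l) *
          (l * ((R : ℝ) ^ 2) ^ 2 * EC (bet pr (m * l)) (fun c => WC t c ^ 2)) ^ r)
        = N * gam pr (m * l) *
          (l * ((R : ℝ) ^ 2) ^ 2 * EC (bet pr (m * l)) (fun c => WC t c ^ 2)) ^ r := by
      field_simp
    rw [h8] at h7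
    linarith
  have hBr : 0 < B ^ (2 * r) := by positivity
  rw [← div_eq_inv_mul, le_div_iff₀ hBr]
  exact hlow.trans hup

theorem one_ap (R : ℕ) (hR : 1 ≤ R) (pr : ι → ℕ) (hp : ∀ i, (pr i).Prime)
    (hinj : Function.Injective pr) (hRp : ∀ i, R < pr i) (u l m t r z N : ℕ) (hl1 : 1 ≤ l)
    (hm : 1 ≤ m) (hl : ∀ i, m * l < pr i) (hz : ∀ i, pr i ≤ z) (hRz : R ≤ z)
    (a Q : ℕ) (hQ0 : 0 < Q) (hQ : ∀ i, ¬ pr i ∣ Q)
    (ha : u + m * l + z < a) (v : ℝ) (hv0 : 0 < v) (hv1 : v ≤ 1)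
    (hV : EC (bet pr (m * l)) (WC t) ≤ v) (hr : 2 * (r : ℝ) ≤ v * m) (Ms : ℝ)
    (hMs : Ms = (l * gS R + (R : ℝ) ^ 6) / gS R ^ 2) :
    (#{y ∈ range N | 4 * v * m * Ms < NB u (m * l) (a + Q * y)} : ℝ)
      ≤ (2 / v) ^ r * ((v * Ms) ^ (2 * r))⁻¹ *
        (N * gam pr (m * l) *
            (l * ((R : ℝ) ^ 2) ^ 2 * EC (bet pr (m * l)) (fun c => WC t c ^ 2)) ^ r
          + (l * ((R : ℝ) ^ 6 * (((Fintype.card ι : ℝ) + 1) ^ (2 * t) + 1))) ^ (2 * r)) := by
  have hβ : ∀ i, 0 ≤ bet pr (m * l) i ∧ bet pr (m * l) i ≤ 1 := bet_mem pr (m * l) hl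
  have hV0 : 0 ≤ EC (bet pr (m * l)) (WC t) := EC_W_nonneg _ hβ t
  have hV1 : EC (bet pr (m * l)) (WC t) ≤ 1 := hV.trans hv1
  have hg1 := one_le_gS R hR
  have hMs0 : 0 < Ms := by
    rw [hMs]
    have h1 : (0 : ℝ) < l := by exact_mod_cast hl1
    have h2 : (0 : ℝ) < gS R := by linarith
    positivity
  have hB : 0 < v * Ms := mul_pos hv0 hMs0
  set X : ℝ := N * gam pr (m * l) *
            (l * ((R : ℝ) ^ 2) ^ 2 * EC (bet pr (m * l)) (fun c => WC t c ^ 2)) ^ r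
          + (l * ((R : ℝ) ^ 6 * (((Fintype.card ι : ℝ) + 1) ^ (2 * t) + 1))) ^ (2 * r) with hX
  have hX0 : 0 ≤ X := by
    have h1 := ONE_EC_sq _ hβ t
    have h2 := (ONE_gam_pos pr (m * l)).le
    rw [hX]
    positivity
  classical
  let bad : ℕ → Finset (Fin m) := fun n => univ.filter
    (fun q : Fin m => 2 * v * Ms ≤ (NB (u + q * l) l (a + Q * n) : ℝ))
  have hbad : ∀ n ∈ range N, ∀ q ∈ bad n,
      v * Ms ≤ GB R pr t (EC (bet pr (m * l)) (WC t)) (u + q * l) l ((a : ℤ) + Q * n) := by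
    intro n hn q hq
    have h1 : 2 * v * Ms ≤ (NB (u + q * l) l (a + Q * n) : ℝ) := (mem_filter.1 hq).2
    have h0 := ONE_mul_le (l := l) q.2
    have h2 := NB_le R hR pr hp t (EC (bet pr (m * l)) (WC t)) hV0 (u + q * l) l (a + Q * n) z
      hRz hz (by
        have : 0 ≤ Q * n := Nat.zero_le _
        omega)
    rw [← hMs] at h2
    have h3 : EC (bet pr (m * l)) (WC t) * Ms ≤ v * Ms :=
      mul_le_mul_of_nonneg_right hV hMs0.le
    push_cast at h2
    linarith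
  have hcount := bad_count (range N) m r ⌈v * m⌉₊ bad (((v * Ms) ^ (2 * r))⁻¹ * X)
    (by positivity)
    (fun T hT => set_ap R hR pr hp hinj hRp u l m t r N hl hV0 hV1 a Q hQ0 hQ (v * Ms) hB bad
      hbad T hT)
  -- the bad integers
  have hsub : (#{n ∈ range N | 4 * v * m * Ms < NB u (m * l) (a + Q * n)} : ℝ)
      ≤ (#{n ∈ range N | ⌈v * m⌉₊ ≤ #(bad n)} : ℝ) := by
    have hs : (range N).filter (fun n => 4 * v * m * Ms < (NB u (m * l) (a + Q * n) : ℝ))
        ⊆ (range N).filter (fun n => ⌈v * m⌉₊ ≤ #(bad n)) := by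
      intro n hn
      rw [mem_filter] at hn ⊢
      refine ⟨hn.1, ?_⟩
      rw [Nat.ceil_le]
      have h1 : (NB u (m * l) (a + Q * n) : ℝ) ≤ (#(bad n) : ℝ) * Ms + 2 * v * m * Ms := by
        rw [NB_split]
        push_cast
        have h2 : ∀ q : Fin m, (NB (u + q * l) l (a + Q * n) : ℝ)
            ≤ (if q ∈ bad n then Ms else 0) + 2 * v * Ms := by
          intro q
          have h0 := ONE_mul_le (l := l) q.2
          by_cases hq : q ∈ bad n
          · rw [if_pos hq]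
            have h3 := NB_triv R hR (u + q * l) l (a + Q * n) (by
              have : 0 ≤ Q * n := Nat.zero_le _
              omega)
            rw [← hMs] at h3
            have : 0 < v * Ms := hB
            linarith
          · rw [if_neg hq]
            have h4 : ¬ (2 * v * Ms ≤ (NB (u + q * l) l (a + Q * n) : ℝ)) := fun h5 =>
              hq (mem_filter.2 ⟨mem_univ _, h5⟩)
            linarith
        calc ∑ q : Fin m, (NB (u + q * l) l (a + Q * n) : ℝ)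
            ≤ ∑ q : Fin m, ((if q ∈ bad n then Ms else 0) + 2 * v * Ms) :=
              Finset.sum_le_sum fun q _ => h2 q
          _ = (#(bad n) : ℝ) * Ms + 2 * v * m * Ms := by
              rw [Finset.sum_add_distrib, Finset.sum_const, card_univ, Fintype.card_fin,
                nsmul_eq_mul, Finset.sum_ite_mem, univ_inter, Finset.sum_const, nsmul_eq_mul]
              ring
      have h6 : 4 * v * m * Ms < (#(bad n) : ℝ) * Ms + 2 * v * m * Ms := lt_of_lt_of_le hn.2 h1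
      have h7 : (2 * v * m) * Ms < (#(bad n) : ℝ) * Ms := by linarith
      have h8 : 2 * v * m < (#(bad n) : ℝ) := lt_of_mul_lt_mul_right h7 hMs0.le
      have h9 : 0 ≤ v * m := by positivity
      linarith
    exact_mod_cast Finset.card_le_card hs
  have hm0 : (0 : ℝ) < m := by exact_mod_cast hm
  have hvm : 0 < v * m := mul_pos hv0 hm0
  have hb : v * m / 2 ≤ ((⌈v * m⌉₊ + 1 - r : ℕ) : ℝ) := by
    have h1 : v * m ≤ (⌈v * m⌉₊ : ℝ) := Nat.le_ceil _
    have h2 : r ≤ ⌈v * m⌉₊ + 1 := by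
      have h3 : (r : ℝ) ≤ ((⌈v * m⌉₊ + 1 : ℕ) : ℝ) := by
        push_cast
        have : (0 : ℝ) ≤ r := Nat.cast_nonneg r
        linarith
      exact_mod_cast h3
    rw [Nat.cast_sub h2]
    push_cast
    linarith
  have hpow : (v * m / 2) ^ r ≤ ((⌈v * m⌉₊ + 1 - r : ℕ) : ℝ) ^ r :=
    pow_le_pow_left₀ (by positivity) hb r
  have hc0 : (0 : ℝ) ≤ (#{n ∈ range N | ⌈v * m⌉₊ ≤ #(bad n)} : ℝ) := Nat.cast_nonneg _
  have h10 : (#{n ∈ range N | ⌈v * m⌉₊ ≤ #(bad n)} : ℝ) * (v * m / 2) ^ r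
      ≤ (m : ℝ) ^ r * (((v * Ms) ^ (2 * r))⁻¹ * X) :=
    (mul_le_mul_of_nonneg_left hpow hc0).trans hcount
  have h11 : (0 : ℝ) < (v * m / 2) ^ r := by positivity
  have h12 : (#{n ∈ range N | ⌈v * m⌉₊ ≤ #(bad n)} : ℝ)
      ≤ (m : ℝ) ^ r * (((v * Ms) ^ (2 * r))⁻¹ * X) / (v * m / 2) ^ r :=
    (le_div_iff₀ h11).2 h10
  refine hsub.trans (h12.trans (le_of_eq ?_))
  have h13 : (2 / v : ℝ) ^ r = (m : ℝ) ^ r / (v * m / 2) ^ r := by
    rw [← div_pow]
    congr 1
    field_simp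
  rw [h13]
  ring

end col

end LO19
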