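import Pool.Agent.LibRD13.All

/-!
MP_699cde_nt in arithmetic progressions, part 1: functions along a progression.
-/

set_option autoImplicit false

namespace LO19

open Finset RD

/-- a combination of residue classes restricted to a progression -/
theorem rep_ap {Λ : ℕ} {Γ : ℝ} {F : ℤ → ℝ} (h : Rep Λ Γ F) (a : ℤ) (Q : ℕ) (hQ : 0 < Q) :
    Rep Λ Γ (fun y => F (a + Q * y)) := by
  classical
  obtain ⟨ι, hι, c, q, b, h1, h2, h3⟩ := h
  -- for each term a coefficient, a modulus and a residue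
  have key : ∀ i, ∃ (c' : ℝ) (q' : ℕ) (b' : ℤ), 0 < q' ∧ q' ∣ q i ∧ |c'| ≤ |c i| ∧
      ∀ y : ℤ, c i * (if (q i : ℤ) ∣ a + Q * y - b i then (1 : ℝ) else 0) =
        c' * (if (q' : ℤ) ∣ y - b' then 1 else 0) := by
    intro i
    have hq := (h1 i).1
    set g : ℕ := Nat.gcd (q i) Q with hg
    have hg0 : 0 < g := Nat.gcd_pos_of_pos_left _ hq
    by_cases hd : (g : ℤ) ∣ a - b i
    · obtain ⟨e, he⟩ := hd
      have hgq : g ∣ q i := Nat.gcd_dvd_left _ _
      have hgQ : g ∣ Q := Nat.gcd_dvd_right _ _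
      set q' : ℕ := q i / g with hq'
      set Q' : ℕ := Q / g with hQ'
      have eq1 : g * q' = q i := Nat.mul_div_cancel' hgq
      have eq2 : g * Q' = Q := Nat.mul_div_cancel' hgQ
      have hcop : Nat.Coprime Q' q' := (Nat.coprime_div_gcd_div_gcd hg0).symm
      have hq'0 : 0 < q' := Nat.div_pos (Nat.le_of_dvd hq hgq) hg0
      obtain ⟨s, hs⟩ : ∃ s : ℤ, (q' : ℤ) ∣ Q' * s - 1 := by
        have hb := Nat.gcd_eq_gcd_ab Q' q'
        rw [hcop] at hb
        refine ⟨Nat.gcdA Q' q', -Nat.gcdB Q' q', ?_⟩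
        push_cast at hb
        linarith
      refine ⟨c i, q', -(e * s), hq'0, Nat.div_dvd_of_dvd hgq, le_rfl, fun y => ?_⟩
      have hiff : (q i : ℤ) ∣ a + Q * y - b i ↔ (q' : ℤ) ∣ y - -(e * s) := by
        have e1 : a + (Q : ℤ) * y - b i = g * (Q' * y + e) := by
          have e2 : (Q : ℤ) = g * Q' := by exact_mod_cast eq2.symm
          rw [e2]
          linarith
        have e3 : (q i : ℤ) = g * q' := by exact_mod_cast eq1.symm
        rw [e1, e3, mul_dvd_mul_iff_left (by exact_mod_cast hg0.ne')]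
        constructor
        · intro h4
          -- multiply by `s`
          have h5 : y - -(e * s) = s * (Q' * y + e) - (Q' * s - 1) * y := by ring
          rw [h5]
          exact dvd_sub (Dvd.dvd.mul_left h4 s) (Dvd.dvd.mul_right hs y)
        · intro h4
          have h5 : (Q' : ℤ) * y + e = Q' * (y - -(e * s)) - (Q' * s - 1) * e := by ring
          rw [h5]
          exact dvd_sub (Dvd.dvd.mul_left h4 _) (Dvd.dvd.mul_right hs e)
      simp only [hiff]
    · refine ⟨0, 1, 0, one_pos, one_dvd _, by simp, fun y => ?_⟩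
      have hno : ¬ (q i : ℤ) ∣ a + Q * y - b i := by
        intro h4
        apply hd
        have h5 : (g : ℤ) ∣ (q i : ℤ) := by exact_mod_cast Nat.gcd_dvd_left (q i) Q
        have h6 : (g : ℤ) ∣ (Q : ℤ) := by exact_mod_cast Nat.gcd_dvd_right (q i) Q
        have h7 : a - b i = (a + Q * y - b i) - Q * y := by ring
        rw [h7]
        exact dvd_sub (h5.trans h4) (Dvd.dvd.mul_right h6 y)
      rw [if_neg hno, mul_zero, zero_mul]
  choose c' q' b' hk1 hk2 hk3 hk4 using key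
  refine ⟨ι, hι, c', q', b', fun i => ⟨hk1 i, (hk2 i).trans (h1 i).2⟩, fun y => ?_, ?_⟩
  · simp only
    rw [h2]
    exact Finset.sum_congr rfl fun i _ => hk4 i y
  · exact (Finset.sum_le_sum fun i _ => hk3 i).trans h3

/-- an inverse of the difference modulo all sieving primes -/
theorem inv_exists {ι : Type} [Fintype ι] (pr : ι → ℕ) (hp : ∀ i, (pr i).Prime) (Q : ℕ)
    (hQ : ∀ i, ¬ pr i ∣ Q) : ∃ s : ℤ, ∀ i, (pr i : ℤ) ∣ Q * s - 1 := by
  classical
  have hcop : Nat.Coprime Q (∏ i, pr i) :=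
    Nat.Coprime.prod_right fun i _ => ((hp i).coprime_iff_not_dvd.2 (hQ i)).symm
  have hb := Nat.gcd_eq_gcd_ab Q (∏ i, pr i)
  rw [hcop] at hb
  refine ⟨Nat.gcdA Q (∏ i, pr i), fun i => ?_⟩
  have h1 : (pr i : ℤ) ∣ ((∏ i, pr i : ℕ) : ℤ) := by
    exact_mod_cast Finset.dvd_prod_of_mem pr (Finset.mem_univ i)
  have h2 : (Q : ℤ) * Nat.gcdA Q (∏ i, pr i) - 1 =
      ((∏ i, pr i : ℕ) : ℤ) * (-Nat.gcdB Q (∏ i, pr i)) := by
    rw [Nat.cast_one] at hb
    linarith
  rw [h2]
  exact Dvd.dvd.mul_right h1 _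

end LO19
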