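import Pool.Agent.LibLO19.Sel

/-!
MP_699cde_nt in arithmetic progressions, part 5: the exceptional set of one scale.
-/

set_option autoImplicit false
set_option linter.unusedSectionVars false

namespace LO19

open Finset Filter Topology RD

theorem card_Ico_range (a b : ℕ) (P : ℕ → Prop) [DecidablePred P] :
    (#{n ∈ Ico a b | P n} : ℝ) = (#{y ∈ range (b - a) | P (a + y)} : ℝ) := by
  rw [card_filter, card_filter, sum_Ico_eq_sum_range]

/-- the exceptional set of one scale -/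
theorem scale_ap : ∃ C : ℝ, 1 ≤ C ∧ ∀ᶠ x : ℕ in atTop, ∀ (b Q : ℕ) (δ : ℝ) (i : ℕ),
    0 < Q → Real.log Q ≤ 2 * 4 ^ i → 1 / Real.log (Real.log x) ≤ δ → δ ≤ 1 → 6 * Real.log (Real.log x) ≤ i →
    (i : ℝ) * (C * Real.log (8 / δ)) ≤ Real.log x * δ →
    (#{n ∈ Ico (⌊Real.sqrt x⌋₊ + 1) (x + 1) |
        2400 * δ * 2 ^ i / i < (NB (2 ^ i) (2 ^ i) (b + Q * n) : ℝ)} : ℝ)
      ≤ 3 * x * Real.exp (-(Real.log x * δ / (16 * C * Real.log (8 / δ))))
        + Real.exp (Real.log x / 8) := by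
  obtain ⟨C, hC, hP⟩ := scale_P_ap
  refine ⟨600 * C, by linarith, ?_⟩
  have hlog : Tendsto (fun x : ℕ => Real.log x) atTop atTop :=
    Real.tendsto_log_atTop.comp tendsto_natCast_atTop_atTop
  have hloglog : Tendsto (fun x : ℕ => Real.log (Real.log x)) atTop atTop :=
    Real.tendsto_log_atTop.comp hlog
  have hE : ∀ᶠ y : ℝ in atTop, 23 + 6 * Real.log y ≤ 1.1 * y := by
    have h1 := Real.isLittleO_log_id_atTop.def (c := (1 / 10 : ℝ)) (by norm_num)
    filter_upwards [h1, eventually_ge_atTop (60 : ℝ)] with y hy hy2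
    rw [Real.norm_eq_abs, Real.norm_eq_abs, id, abs_of_nonneg (by linarith : (0 : ℝ) ≤ y)] at hy
    have := le_abs_self (Real.log y)
    linarith
  filter_upwards [hloglog.eventually hE, hloglog.eventually (eventually_ge_atTop (100 : ℝ)),
    hlog.eventually (eventually_ge_atTop (100 : ℝ)), eventually_ge_atTop 1] with x hx1 hx2 hx3 hx4
  intro b Q δ i hQ0 hQ hδ1 hδ2 hi1 hi2
  set L : ℝ := Real.log x with hL
  set LL : ℝ := Real.log L with hLL
  set κ : ℝ := Real.log (8 / δ) with hκ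
  have hLL0 : 0 < LL := by linarith
  have hδ : 0 < δ := lt_of_lt_of_le (by positivity) hδ1
  have hx0 : (0 : ℝ) < x := by exact_mod_cast hx4
  have hL0 : 0 < L := by linarith
  have hδinv : 1 / δ ≤ LL := by
    rw [div_le_iff₀ hδ]
    rw [div_le_iff₀ hLL0] at hδ1
    linarith
  have hi0R : (600 : ℝ) ≤ i := by linarith
  have hi0 : 600 ≤ i := by exact_mod_cast hi0R
  have hip : (0 : ℝ) < i := by linarith
  have h8 : (8 : ℝ) ≤ 8 / δ := by
    rw [le_div_iff₀ hδ]; linarith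
  have hκ2 : 2 ≤ κ := by
    rw [hκ, Real.le_log_iff_exp_le (by positivity)]
    have h1 : Real.exp 2 ≤ 8 := by
      have := Real.exp_one_lt_d9
      have h2 : Real.exp 2 = Real.exp 1 ^ 2 := by
        rw [← Real.exp_nat_mul]; norm_num
      rw [h2]
      have h3 : (0 : ℝ) < Real.exp 1 := Real.exp_pos 1
      nlinarith
    linarith
  have hlb := log_two_bounds
  have hlogδ : Real.log (1 / δ) ≤ κ := by
    rw [hκ]
    apply Real.log_le_log (by positivity)
    gcongr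
    norm_num
  -- the parameters
  obtain ⟨P, t, z, hPp, hz, hz1, hkz, ht, hEC, hEC2⟩ := hP (2 ^ i) δ Q
    (by calc 2 = 2 ^ 1 := by norm_num
          _ ≤ 2 ^ i := Nat.pow_le_pow_right (by norm_num) (by omega)) hδ hδ2 hQ0
    (by
      refine hQ.trans (le_of_eq ?_)
      push_cast
      rw [← pow_mul, mul_comm i 2, pow_mul]
      norm_num)
  set pr : {x // x ∈ P} → ℕ := fun p => (p : ℕ) with hpr
  set l : ℕ := 2 ^ ((i + 1) / 2) with hl
  set m : ℕ := 2 ^ (i / 2) with hm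
  set R : ℕ := 2 ^ (i / 200) with hR
  have hml : m * l = 2 ^ i := by
    rw [hm, hl, ← pow_add]
    congr 1
    omega
  have hR1 : 1 ≤ R := Nat.one_le_two_pow
  have hl1 : 1 ≤ l := Nat.one_le_two_pow
  have hm1 : 1 ≤ m := Nat.one_le_two_pow
  have hRk : R ≤ 2 ^ i := Nat.pow_le_pow_right (by norm_num) (Nat.div_le_self _ _)
  obtain ⟨hMs1, hMs2⟩ := Ms_bounds (by omega : 400 ≤ i) l R hl hR _ rfl
  set Ms : ℝ := (l * gS R + (R : ℝ) ^ 6) / gS R ^ 2 with hMs
  have hlogz : Real.log z ≤ C * i / δ := by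
    refine hz.trans ?_
    push_cast
    rw [Real.log_pow]
    have h1 : (i : ℝ) * Real.log 2 ≤ i := by nlinarith
    gcongr
  set y : ℝ := L * δ / (600 * C * i * κ) with hy
  have hden : 0 < 600 * C * i * κ := by positivity
  have hy1 : 1 ≤ y := by
    rw [hy, le_div_iff₀ hden]
    linarith
  set r : ℕ := ⌊y⌋₊ with hr
  have hry : (r : ℝ) ≤ y := Nat.floor_le (by linarith)
  have hry2 : y / 2 ≤ r := by
    have h1 := Nat.lt_floor_add_one y
    have h2 : (1 : ℝ) ≤ r := by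
      have : 1 ≤ r := Nat.le_floor (by simpa using hy1)
      exact_mod_cast this
    linarith
  have hm2 : L ≤ m := by
    have h1 : LL ≤ Real.log m := by
      rw [hm]; push_cast
      rw [Real.log_pow]
      have h2 : (i : ℝ) ≤ 2 * ((i / 2 : ℕ) : ℝ) + 1 := by
        have : i ≤ 2 * (i / 2) + 1 := by omega
        exact_mod_cast this
      nlinarith
    have hm0 : (0 : ℝ) < m := by exact_mod_cast hm1
    rw [hLL] at h1
    exact (Real.log_le_log_iff hL0 hm0).1 h1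
  have hr2 : 2 * (r : ℝ) ≤ δ / 4 * m := by
    have h1 : y * (600 * C * i * κ) = L * δ := div_mul_cancel₀ _ hden.ne'
    have h2 : (8 : ℝ) ≤ 600 * C * i * κ := by nlinarith [mul_pos (by linarith : (0:ℝ) < C) hip]
    have h3 : 8 * y ≤ L * δ := by nlinarith
    have h4 : L * δ ≤ m * δ := by nlinarith
    linarith
  have hi3 : (i : ℝ) ≤ L / 1200 := by
    have h1 : (i : ℝ) * 1200 ≤ i * (600 * C * κ) := by
      have : (1200 : ℝ) ≤ 600 * C * κ := by nlinarith
      nlinarith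
    have h2 : L * δ ≤ L := by nlinarith
    linarith
  have hzL : Real.log z ≤ L / 1200 := by
    refine hlogz.trans ?_
    rw [div_le_div_iff₀ hδ (by norm_num)]
    have h1 : C * i * 1200 ≤ i * (600 * C * κ) := by
      have h2 : 0 ≤ C * i := by positivity
      nlinarith
    linarith
  have hsq : Real.sqrt x = Real.exp (L / 2) := by
    rw [hL, Real.sqrt_eq_rpow, Real.rpow_def_of_pos hx0]
    congr 1; ring
  have hn0 : 2 ^ i + m * l + z < ⌊Real.sqrt x⌋₊ + 1 := by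
    rw [hml]
    apply Nat.lt_succ_of_le
    apply Nat.le_floor
    push_cast
    have h1 : (2 : ℝ) ^ i ≤ Real.exp (L / 8) := by
      have h2 : (2 : ℝ) ^ i = Real.exp (Real.log 2 * i) := by
        rw [← Real.rpow_natCast, Real.rpow_def_of_pos (by norm_num)]
      rw [h2]
      apply Real.exp_le_exp.2
      nlinarith
    have h3 : (z : ℝ) ≤ Real.exp (L / 8) := by
      have h4 : (0 : ℝ) < z := by exact_mod_cast hz1
      rw [← Real.log_le_iff_le_exp h4]
      linarith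
    have h5 : 3 * Real.exp (L / 8) ≤ Real.exp (L / 2) := by
      have h6 : Real.exp (L / 2) = Real.exp (L / 8) * Real.exp (3 * L / 8) := by
        rw [← Real.exp_add]; congr 1; ring
      have h7 : 3 ≤ Real.exp (3 * L / 8) := by
        have := Real.add_one_le_exp (3 * L / 8)
        linarith
      rw [h6]
      have := Real.exp_pos (L / 8)
      nlinarith
    rw [hsq]
    linarith
  -- apply one_ap
  have hn0' : 2 ^ i + m * l + z < b + Q * (⌊Real.sqrt x⌋₊ + 1) := by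
    have h1 : ⌊Real.sqrt x⌋₊ + 1 ≤ Q * (⌊Real.sqrt x⌋₊ + 1) := Nat.le_mul_of_pos_left _ hQ0
    omega
  have hone := one_ap R hR1 pr (fun p => (hPp p.1 p.2).1) Subtype.val_injective
    (fun p => lt_of_le_of_lt hRk (lt_of_le_of_lt (Nat.le_add_left _ _) (hPp p.1 p.2).2.1))
    (2 ^ i) l m t r z (x + 1 - (⌊Real.sqrt x⌋₊ + 1)) hl1 hm1
    (fun p => by
      rw [hml]
      exact lt_of_le_of_lt (Nat.le_add_left _ _) (hPp p.1 p.2).2.1)
    (fun p => (hPp p.1 p.2).2.2.1) (hRk.trans hkz) (b + Q * (⌊Real.sqrt x⌋₊ + 1)) Q hQ0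
    (fun p => (hPp p.1 p.2).2.2.2) hn0' (δ / 4) (by positivity) (by linarith)
    (by rw [hml]; exact hEC) hr2 Ms rfl
  have hsx : ⌊Real.sqrt x⌋₊ + 1 ≤ x + 1 := by
    apply Nat.succ_le_succ
    have h1 : Real.sqrt x ≤ x := by
      rw [Real.sqrt_le_left (by positivity)]
      have : (1 : ℝ) ≤ x := by exact_mod_cast hx4
      nlinarith
    have h2 := Nat.floor_le_floor h1
    rwa [Nat.floor_natCast] at h2
  rw [hml] at hone
  have hsub : (#{n ∈ Ico (⌊Real.sqrt x⌋₊ + 1) (x + 1) |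
        2400 * δ * 2 ^ i / i < (NB (2 ^ i) (2 ^ i) (b + Q * n) : ℝ)} : ℝ) ≤
      (#{y ∈ range (x + 1 - (⌊Real.sqrt x⌋₊ + 1)) |
        4 * (δ / 4) * m * Ms <
          (NB (2 ^ i) (2 ^ i) (b + Q * (⌊Real.sqrt x⌋₊ + 1) + Q * y) : ℝ)} : ℝ) := by
    have h1 : 4 * (δ / 4) * m * Ms ≤ 2400 * δ * 2 ^ i / i := by
      have h2 : (2 : ℝ) ^ i = m * l := by
        have := hml
        exact_mod_cast this.symm
      rw [h2]
      have h3 : 0 ≤ δ * m := by positivity
      calc 4 * (δ / 4) * m * Ms = δ * m * Ms := by ring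
        _ ≤ δ * m * (2400 * l / i) := mul_le_mul_of_nonneg_left hMs2 h3
        _ = 2400 * δ * (m * l) / i := by ring
    rw [card_Ico_range (⌊Real.sqrt x⌋₊ + 1) (x + 1)
      (fun n => 2400 * δ * 2 ^ i / i < (NB (2 ^ i) (2 ^ i) (b + Q * n) : ℝ))]
    have h4 : ({y ∈ range (x + 1 - (⌊Real.sqrt x⌋₊ + 1)) |
        2400 * δ * 2 ^ i / i <
          (NB (2 ^ i) (2 ^ i) (b + Q * ((⌊Real.sqrt x⌋₊ + 1) + y)) : ℝ)}) ⊆
      ({y ∈ range (x + 1 - (⌊Real.sqrt x⌋₊ + 1)) |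
        4 * (δ / 4) * m * Ms <
          (NB (2 ^ i) (2 ^ i) (b + Q * (⌊Real.sqrt x⌋₊ + 1) + Q * y) : ℝ)}) := by
      intro n hn
      rw [mem_filter] at hn ⊢
      refine ⟨hn.1, lt_of_le_of_lt h1 ?_⟩
      have e : b + Q * (⌊Real.sqrt x⌋₊ + 1) + Q * n = b + Q * ((⌊Real.sqrt x⌋₊ + 1) + n) := by ring
      rw [e]
      exact hn.2
    exact_mod_cast card_le_card h4
  refine hsub.trans (hone.trans ?_)
  -- rewrite the bound as `N gam A^r + B^r`
  set E2 : ℝ := EC (bet pr (2 ^ i)) (fun c => WC t c ^ 2) with hE2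
  set Γ : ℝ := l * ((R : ℝ) ^ 6 * (((Fintype.card {x // x ∈ P} : ℝ) + 1) ^ (2 * t) + 1)) with hΓ
  set v : ℝ := δ / 4 with hv
  have hv0 : 0 < v := by positivity
  have hRp : (0 : ℝ) < R := by exact_mod_cast hR1
  have hlp : (0 : ℝ) < l := by exact_mod_cast hl1
  have hMs0 : 0 < Ms := lt_of_lt_of_le (by positivity) hMs1
  have hE20 : 0 ≤ E2 := by
    rw [hE2]
    unfold EC
    refine sum_nonneg fun c _ => mul_nonneg (cw_nonneg _ (bet_mem pr (2 ^ i) (fun p =>
      lt_of_le_of_lt (Nat.le_add_left _ _) (hPp p.1 p.2).2.1)) _) (sq_nonneg _)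
  have hgam : gam pr (2 ^ i) ≤ 3 := by
    have h1 := gam_le pr Subtype.val_injective (2 ^ i) Nat.one_le_two_pow
      (fun p => (hPp p.1 p.2).2.1)
    have := Real.exp_one_lt_d9
    linarith
  have hgam0 : 0 ≤ gam pr (2 ^ i) := prod_nonneg fun _ _ => (Real.exp_pos _).le
  set A : ℝ := (2 / v) * ((v * Ms) ^ 2)⁻¹ * (l * ((R : ℝ) ^ 2) ^ 2 * E2) with hA
  set B : ℝ := (2 / v) * ((v * Ms) ^ 2)⁻¹ * Γ ^ 2 with hB
  have hA0 : 0 ≤ A := by positivity
  have hΓ0 : 0 ≤ Γ := by positivity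
  have hB0 : 0 ≤ B := by positivity
  have hN : ((x + 1 - (⌊Real.sqrt x⌋₊ + 1) : ℕ) : ℝ) ≤ x := by
    have : x + 1 - (⌊Real.sqrt x⌋₊ + 1) ≤ x := by omega
    exact_mod_cast this
  rw [comb_eq]
  have hlogR : Real.log R ≤ 0.0035 * i := by
    rw [hR]; push_cast
    rw [Real.log_pow]
    have h1 := (scale_R (by omega : 400 ≤ i)).2.1
    nlinarith
  have hlogl : 0.345 * i ≤ Real.log l := by
    rw [hl]; push_cast
    rw [Real.log_pow]
    have h1 : (i : ℝ) ≤ 2 * (((i + 1) / 2 : ℕ) : ℝ) := by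
      have : i ≤ 2 * ((i + 1) / 2) := by omega
      exact_mod_cast this
    nlinarith
  have hlogδ2 : Real.log (1 / δ) ≤ Real.log LL := Real.log_le_log (by positivity) hδinv
  have hAle : A ≤ Real.exp (-(i / 8)) :=
    (A_le hv hδ hRp hlp hMs1 hE20 hEC2).trans
      (log_A hδ hRp hlp hip.le hlogR hlogl hlogδ2 hx1 hi1)
  have hcard : (Fintype.card {x // x ∈ P} : ℝ) + 1 ≤ 2 * z := by
    have h1 : Fintype.card {x // x ∈ P} ≤ z := by
      rw [Fintype.card_coe]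
      have h2 : P ⊆ Icc 1 z := by
        intro p hp
        rw [mem_Icc]
        exact ⟨(hPp p hp).1.one_lt.le, (hPp p hp).2.2.1⟩
      have h3 := card_le_card h2
      rwa [Nat.card_Icc, Nat.add_sub_cancel] at h3
    have h4 : Fintype.card {x // x ∈ P} + 1 ≤ 2 * z := by omega
    exact_mod_cast h4
  have hzp : (0 : ℝ) < z := by exact_mod_cast hz1
  have hΓle : Γ ≤ l * ((R : ℝ) ^ 6 * (2 * (2 * z) ^ (2 * t))) := by
    rw [hΓ]
    have h1 : ((Fintype.card {x // x ∈ P} : ℝ) + 1) ^ (2 * t) ≤ (2 * z) ^ (2 * t) :=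
      pow_le_pow_left₀ (by positivity) hcard _
    have h2 : (1 : ℝ) ≤ (2 * z) ^ (2 * t) := by
      apply one_le_pow₀
      have : (1 : ℝ) ≤ z := by exact_mod_cast hz1
      linarith
    have h3 : ((Fintype.card {x // x ∈ P} : ℝ) + 1) ^ (2 * t) + 1 ≤ 2 * (2 * z) ^ (2 * t) := by
      linarith
    have h4 : (0 : ℝ) ≤ (R : ℝ) ^ 6 := by positivity
    exact mul_le_mul_of_nonneg_left (mul_le_mul_of_nonneg_left h3 h4) hlp.le
  have hBle : B ≤ Real.exp (75 * C * κ * i / δ) :=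
    (B_le hv hδ hRp hlp hMs1 hΓ0 hΓle).trans
      (log_B hδ hδ2 hRp hzp hi0R hC hκ2 hlogR hlogz ht hlogδ)
  have hAr := pow_A hA0 hAle hip (by linarith : (0 : ℝ) < κ) (by linarith : (0 : ℝ) < C) hy hry2
  have hBr := pow_B hB0 hBle hip (by linarith : (0 : ℝ) < κ) (by linarith : (0 : ℝ) < C) hδ hy hry
  have hfin : ((x + 1 - (⌊Real.sqrt x⌋₊ + 1) : ℕ) : ℝ) * gam pr (2 ^ i) * A ^ r ≤
      x * 3 * Real.exp (-(L * δ / (16 * (600 * C) * κ))) :=
    mul_le_mul (mul_le_mul hN hgam hgam0 hx0.le) hAr (pow_nonneg hA0 _) (by positivity)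
  have hfin2 : ((x + 1 - (⌊Real.sqrt x⌋₊ + 1) : ℕ) : ℝ) * gam pr (2 ^ i) * A ^ r + B ^ r ≤
      x * 3 * Real.exp (-(L * δ / (16 * (600 * C) * κ))) + Real.exp (L / 8) :=
    add_le_add hfin hBr
  refine hfin2.trans (le_of_eq ?_)
  ring

end LO19
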