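import Pool.Agent.LibLO19.One
import Pool.Agent.LibRD13.FinC

/-!
MP_699cde_nt in arithmetic progressions, part 4: sieving primes which do not divide the difference.
-/

set_option autoImplicit false
set_option linter.unusedSectionVars false

namespace LO19

open Finset Filter Topology RD

/-- the prime divisors of `Q` above `H` have small reciprocal sum when `log Q ≤ H` -/
theorem sum_dvd (H Q : ℕ) (hH : 2 ≤ H) (hQ : 0 < Q) (hlog : Real.log Q ≤ H) (P : Finset ℕ)
    (hP : ∀ p ∈ P, p.Prime ∧ H < p) :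
    ∑ p ∈ P.filter (fun p => p ∣ Q), (1 : ℝ) / p ≤ 1 := by
  have hH0 : (0 : ℝ) < H := by
    have : 0 < H := by omega
    exact_mod_cast this
  have h1 : ∀ p ∈ P.filter (fun p => p ∣ Q), (1 : ℝ) / p ≤ Real.log p / H := by
    intro p hp
    rw [mem_filter] at hp
    have h2 := (hP p hp.1).2
    have h3 : (H : ℝ) ≤ p := by exact_mod_cast h2.le
    have h4 : (3 : ℝ) ≤ p := by
      have : 3 ≤ p := by omega
      exact_mod_cast this
    have h5 : 1 ≤ Real.log p := by
      rw [Real.le_log_iff_exp_le (by linarith)]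
      have := Real.exp_one_lt_d9
      linarith
    rw [div_le_div_iff₀ (by linarith) hH0]
    nlinarith
  refine (sum_le_sum h1).trans ?_
  rw [← sum_div, div_le_one hH0]
  refine le_trans ?_ hlog
  have h6 : ∏ p ∈ P.filter (fun p => p ∣ Q), p ≤ Q := by
    apply Nat.le_of_dvd hQ
    refine dvd_trans (Finset.prod_dvd_prod_of_subset _ Q.primeFactors (fun p => p) ?_)
      (Nat.prod_primeFactors_dvd Q)
    intro p hp
    rw [mem_filter] at hp
    exact Nat.mem_primeFactors.2 ⟨(hP p hp.1).1, hp.2, hQ.ne'⟩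
  have h7 : ∑ p ∈ P.filter (fun p => p ∣ Q), Real.log p =
      Real.log ((∏ p ∈ P.filter (fun p => p ∣ Q), p : ℕ) : ℝ) := by
    push_cast
    rw [Real.log_prod]
    intro p hp
    rw [mem_filter] at hp
    have := (hP p hp.1).1.pos
    exact_mod_cast this.ne'
  rw [h7]
  apply Real.log_le_log
  · have h8 : 0 < ∏ p ∈ P.filter (fun p => p ∣ Q), p := by
      apply prod_pos
      intro p hp
      rw [mem_filter] at hp
      exact (hP p hp.1).1.pos
    exact_mod_cast h8
  · exact_mod_cast h6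

theorem select_ap : ∃ C : ℝ, 1 ≤ C ∧ ∀ (H z : ℕ) (κ : ℝ) (Q : ℕ), 2 ≤ H → 1 ≤ κ →
    0 < Q → Real.log Q ≤ H → C * Real.log H * Real.exp κ ≤ Real.log z →
    ∃ P : Finset ℕ, (∀ p ∈ P, p.Prime ∧ H < p ∧ p ≤ z ∧ ¬ p ∣ Q) ∧ κ ≤ ∑ p ∈ P, (1 : ℝ) / p ∧
      ∑ p ∈ P, (1 : ℝ) / p ≤ κ + 1 := by
  classical
  obtain ⟨C, hC, h⟩ := select
  have he : (1 : ℝ) ≤ Real.exp 1 := Real.one_le_exp (by norm_num)
  refine ⟨C * Real.exp 1, by nlinarith, ?_⟩
  intro H z κ Q hH hκ hQ0 hQ hz
  obtain ⟨P, hP, hP1, _⟩ := h H z (κ + 1) hH (by linarith) (by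
    rw [Real.exp_add]
    refine le_trans (le_of_eq ?_) hz
    ring)
  have hd := sum_dvd H Q hH hQ0 hQ P (fun p hp => ⟨(hP p hp).1, (hP p hp).2.1⟩)
  have hsplit := Finset.sum_filter_add_sum_filter_not P (fun p => p ∣ Q) (fun p => (1 : ℝ) / p)
  set g : ℕ → ℝ := fun n => if n ∈ P ∧ ¬ n ∣ Q then 1 / (n : ℝ) else 0 with hg
  have hsum : κ ≤ ∑ n ∈ Ioc H z, g n := by
    have h1 : ∑ n ∈ Ioc H z, g n = ∑ p ∈ P.filter (fun p => ¬ p ∣ Q), (1 : ℝ) / p := by
      rw [hg, ← sum_filter]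
      apply sum_congr _ fun _ _ => rfl
      ext n
      rw [mem_filter, mem_filter, mem_Ioc]
      constructor
      · rintro ⟨_, h2⟩
        exact h2
      · rintro h2
        exact ⟨(hP n h2.1).2, h2⟩
    rw [h1]
    linarith
  obtain ⟨M, hMz, hM1, hM2⟩ := MER_greedy g
    (by
      intro n hn
      have hn1 : (1 : ℝ) ≤ n := by exact_mod_cast hn
      rw [hg]
      simp only
      split_ifs
      · exact (div_le_one (by linarith)).2 hn1
      · norm_num) H z κ (by linarith) hsum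
  refine ⟨(Ioc H M).filter (fun n => n ∈ P ∧ ¬ n ∣ Q), ?_, ?_, ?_⟩
  · intro p hp
    rw [mem_filter, mem_Ioc] at hp
    exact ⟨(hP p hp.2.1).1, hp.1.1, hp.1.2.trans hMz, hp.2.2⟩
  · rw [sum_filter]
    exact hM1
  · rw [sum_filter]
    exact hM2

/-- the choice of the sieving primes, expectation of the Brun weight -/
theorem scale_P_ap : ∃ C : ℝ, 1 ≤ C ∧ ∀ (k : ℕ) (δ : ℝ) (Q : ℕ), 2 ≤ k → 0 < δ → δ ≤ 1 →
    0 < Q → Real.log Q ≤ 2 * (k : ℝ) ^ 2 →
    ∃ (P : Finset ℕ) (t z : ℕ), (∀ p ∈ P, p.Prime ∧ k ^ 2 + k < p ∧ p ≤ z ∧ ¬ p ∣ Q) ∧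
      Real.log z ≤ C * Real.log k / δ ∧ 1 ≤ z ∧ k ≤ z ∧ (t : ℝ) ≤ 8 * Real.log (8 / δ) ∧
      EC (bet (fun p : {x // x ∈ P} => (p : ℕ)) k) (WC t) ≤ δ / 4 ∧
      EC (bet (fun p : {x // x ∈ P} => (p : ℕ)) k) (fun c => WC t c ^ 2) ≤
        Real.exp 18 / δ ^ 3 := by
  obtain ⟨C, hC, hsel⟩ := select_ap
  refine ⟨32 * C, by linarith, fun k δ Q hk hδ hδ1 hQ0 hQ => ?_⟩
  have hk1 : (2 : ℝ) ≤ k := by exact_mod_cast hk
  have hlogk : 0 < Real.log k := Real.log_pos (by linarith)
  set H : ℕ := 2 * k ^ 2 with hH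
  have hlogH : Real.log H ≤ 3 * Real.log k := by
    have h1 : ((H : ℕ) : ℝ) ≤ (k : ℝ) ^ 3 := by
      rw [hH]; push_cast
      nlinarith [sq_nonneg (k : ℝ), mul_le_mul_of_nonneg_right hk1 (sq_nonneg (k : ℝ))]
    have h2 : (0 : ℝ) < (H : ℝ) := by
      rw [hH]; push_cast; positivity
    have h3 := Real.log_le_log h2 h1
    rw [Real.log_pow] at h3
    exact_mod_cast h3
  have hlogH0 : 0 ≤ Real.log H := Real.log_natCast_nonneg _
  set κ : ℝ := Real.log (8 / δ) with hκ
  have h8 : (8 : ℝ) ≤ 8 / δ := by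
    rw [le_div_iff₀ hδ]; linarith
  have hexpκ : Real.exp κ = 8 / δ := Real.exp_log (by positivity)
  have hκ2 : 2 ≤ κ := by
    rw [hκ, Real.le_log_iff_exp_le (by positivity)]
    have h1 : Real.exp 2 ≤ 8 := by
      have := Real.exp_one_lt_d9
      have h2 : Real.exp 2 = Real.exp 1 ^ 2 := by
        rw [← Real.exp_nat_mul]; norm_num
      rw [h2]
      have h3 : (0 : ℝ) < Real.exp 1 := Real.exp_pos 1
      nlinarith
    linarith
  set y : ℝ := C * Real.log H * Real.exp κ with hy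
  have hy0 : 0 ≤ y := by
    rw [hy]; positivity
  set z : ℕ := ⌈Real.exp y⌉₊ + k with hz
  have hez : Real.exp y ≤ z := by
    rw [hz]; push_cast
    have := Nat.le_ceil (Real.exp y)
    have hk0 : (0 : ℝ) ≤ k := by positivity
    linarith
  have hz1 : 1 ≤ z := by
    have : k ≤ z := by rw [hz]; exact Nat.le_add_left _ _
    omega
  have hyz : y ≤ Real.log z := by
    rw [Real.le_log_iff_exp_le (by exact_mod_cast hz1)]
    exact hez
  obtain ⟨P, hP, hP1, hP2⟩ := hsel H z κ Q (by rw [hH]; nlinarith) (by linarith) hQ0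
    (by rw [hH]; push_cast; exact hQ) hyz
  set pr : {x // x ∈ P} → ℕ := fun p => (p : ℕ) with hpr
  have hinj : Function.Injective pr := Subtype.val_injective
  have hbig : ∀ i, k ^ 2 + k < pr i := by
    intro i
    have h1 := (hP i.1 i.2).2.1
    rw [hH] at h1
    change k ^ 2 + k < i.1
    nlinarith
  have hsum : ∑ i, (1 : ℝ) / pr i = ∑ p ∈ P, (1 : ℝ) / p := by
    rw [← Finset.sum_coe_sort P (fun p => (1 : ℝ) / (p : ℝ))]
  have hkp : ∀ i, k < pr i := fun i => lt_of_le_of_lt (Nat.le_add_left _ _) (hbig i)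
  have hbm := bet_mem pr k hkp
  have hlo : κ ≤ ∑ i, bet pr k i := by
    have := bet_sum_ge pr k (by omega) hkp
    rw [hsum] at this
    linarith
  have hhi : ∑ i, bet pr k i ≤ κ + 3 := by
    have := bet_sum_le pr hinj k (by omega) hbig
    rw [hsum] at this
    linarith
  set t : ℕ := ⌈3 * (κ + 3)⌉₊ with ht
  have ht1 : 3 * (κ + 3) ≤ t := Nat.le_ceil _
  have ht2 : (t : ℝ) ≤ 3 * (κ + 3) + 1 := (Nat.ceil_lt_add_one (by linarith)).le
  refine ⟨P, t, z, ?_, ?_, hz1, by rw [hz]; exact Nat.le_add_left _ _, ?_, ?_, ?_⟩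
  · intro p hp
    exact ⟨(hP p hp).1, hbig ⟨p, hp⟩, (hP p hp).2.2.1, (hP p hp).2.2.2⟩
  · have h1 : (z : ℝ) ≤ Real.exp y * (k + 2) := by
      rw [hz]; push_cast
      have h2 := (Nat.ceil_lt_add_one (Real.exp_pos y).le).le
      have h3 : 1 ≤ Real.exp y := Real.one_le_exp hy0
      nlinarith
    have h2 : Real.log z ≤ y + Real.log (k + 2) := by
      have h3 := Real.log_le_log (by exact_mod_cast hz1) h1
      rw [Real.log_mul (Real.exp_pos y).ne' (by positivity), Real.log_exp] at h3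
      exact h3
    have h3 : Real.log (k + 2) ≤ 2 * Real.log k := by
      have h4 : (k : ℝ) + 2 ≤ (k : ℝ) ^ 2 := by nlinarith
      have h5 := Real.log_le_log (by positivity) h4
      rw [Real.log_pow] at h5
      exact_mod_cast h5
    have h4 : y ≤ 24 * C * Real.log k / δ := by
      rw [hy, hexpκ]
      have h5 : C * Real.log H * (8 / δ) = C * Real.log H * 8 / δ := by ring
      rw [h5]
      have h6 : C * Real.log H * 8 ≤ 24 * C * Real.log k := by
        have := mul_le_mul_of_nonneg_left hlogH (by linarith : (0 : ℝ) ≤ C)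
        linarith
      exact div_le_div_of_nonneg_right h6 hδ.le
    have h5 : Real.log k ≤ Real.log k / δ := by
      rw [le_div_iff₀ hδ]
      nlinarith
    have h6 : 2 * Real.log k ≤ 2 * C * (Real.log k / δ) := by nlinarith
    have h7 : 32 * C * Real.log k / δ = 24 * C * Real.log k / δ + 8 * C * (Real.log k / δ) := by
      ring
    have h8 : 0 ≤ C * (Real.log k / δ) := by positivity
    linarith
  · linarith
  · have h1 := EC_W_le (bet pr k) hbm t
    have h2 : Real.exp (-∑ i, bet pr k i) ≤ δ / 8 := by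
      have h3 : Real.exp (-∑ i, bet pr k i) ≤ Real.exp (-κ) :=
        Real.exp_le_exp.2 (by linarith)
      rw [Real.exp_neg κ, hexpκ] at h3
      rw [inv_div] at h3
      exact h3
    have h3 : Real.exp (8 * ∑ i, bet pr k i) / 8 ^ (2 * t) ≤ δ / 8 := by
      have h4 : Real.exp (12 * (κ + 3)) ≤ 8 ^ (2 * t) := by
        have h5 : (8 : ℝ) ^ (2 * t) = Real.exp (Real.log 8 * (2 * t)) := by
          rw [← Real.rpow_natCast, Real.rpow_def_of_pos (by norm_num)]
          push_cast; rfl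
        rw [h5]
        apply Real.exp_le_exp.2
        have h6 : 2 ≤ Real.log 8 := by
          rw [Real.le_log_iff_exp_le (by norm_num)]
          have := Real.exp_one_lt_d9
          have h2 : Real.exp 2 = Real.exp 1 ^ 2 := by
            rw [← Real.exp_nat_mul]; norm_num
          rw [h2]
          have h3 : (0 : ℝ) < Real.exp 1 := Real.exp_pos 1
          nlinarith
        nlinarith
      have h5 : Real.exp (8 * ∑ i, bet pr k i) ≤ Real.exp (8 * (κ + 3)) :=
        Real.exp_le_exp.2 (by linarith)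
      have h6 : Real.exp (8 * ∑ i, bet pr k i) / 8 ^ (2 * t) ≤
          Real.exp (8 * (κ + 3)) / Real.exp (12 * (κ + 3)) := by
        gcongr
      rw [← Real.exp_sub] at h6
      have h7 : Real.exp (8 * (κ + 3) - 12 * (κ + 3)) ≤ Real.exp (-κ) :=
        Real.exp_le_exp.2 (by linarith)
      rw [Real.exp_neg κ, hexpκ, inv_div] at h7
      linarith
    linarith
  · have h1 := EC_Wsq_le (bet pr k) hbm t
    have h2 : Real.exp (3 * ∑ i, bet pr k i) ≤ Real.exp (3 * (κ + 3)) :=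
      Real.exp_le_exp.2 (by linarith)
    have h3 : Real.exp (3 * (κ + 3)) = Real.exp 9 * (8 / δ) ^ 3 := by
      rw [← hexpκ, ← Real.exp_nat_mul, ← Real.exp_add]
      congr 1
      push_cast; ring
    have h4 : Real.exp 9 * (8 / δ) ^ 3 ≤ Real.exp 18 / δ ^ 3 := by
      have h5 : Real.exp 9 * (8 / δ) ^ 3 = Real.exp 9 * 512 / δ ^ 3 := by
        rw [div_pow]; ring
      rw [h5]
      gcongr
      have h6 : Real.exp 18 = Real.exp 9 * Real.exp 9 := by
        rw [← Real.exp_add]; norm_num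
      rw [h6]
      gcongr
      have h7 : (512 : ℝ) = 2 ^ 9 := by norm_num
      have h8 : Real.exp 9 = Real.exp 1 ^ 9 := by
        rw [← Real.exp_nat_mul]; norm_num
      rw [h7, h8]
      have h9 := Real.exp_one_gt_d9
      gcongr
      linarith
    linarith

end LO19
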